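import Pool.Agent.W_24bb3a_h26.Grp

/-! `BG` is residually finite. -/

set_option autoImplicit false

namespace BS

/-- For an odd number `M` there is a homomorphism to the permutations of `ZMod M` with
`a ↦ (q ↦ q + 1)`, `t ↦ (q ↦ 2 q)`. -/
theorem exists_perm_hom (M : ℕ) (hM : Odd M) :
    ∃ f : BG →* Equiv.Perm (ZMod M), (∀ q, f (bof 0) q = q + 1) ∧ (∀ q, f (bof 1) q = 2 * q) := by
  have hc : Nat.Coprime 2 M := (Nat.coprime_two_left).2 hM
  let u : (ZMod M)ˣ := ZMod.unitOfCoprime 2 hc
  have hu : (u : ZMod M) = 2 := by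
    have h2 : (u : ZMod M) = ((2 : ℕ) : ZMod M) := ZMod.coe_unitOfCoprime 2 hc
    rw [h2]
    norm_num
  let a : Equiv.Perm (ZMod M) := Equiv.addRight 1
  let t : Equiv.Perm (ZMod M) := Units.mulLeft u
  have ha : ∀ q, a q = q + 1 := fun q => rfl
  have ht : ∀ q, t q = 2 * q := by
    intro q
    show (u : ZMod M) * q = 2 * q
    rw [hu]
  have h : t * a * t⁻¹ = a * a := by
    rw [mul_inv_eq_iff_eq_mul]
    ext1 q
    simp only [Equiv.Perm.mul_apply]
    rw [ht, ha, ha, ha, ht]
    ring
  obtain ⟨f, hf0, hf1⟩ := exists_hom a t h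
  refine ⟨f, ?_, ?_⟩
  · intro q
    rw [hf0, ha]
  · intro q
    rw [hf1, ht]

/-- `BG` is residually finite. `g = t^(-i) a^k t^j ≠ 1`. The permutation of `ZMod M` given by `g`
is `q ↦ 2^(-i) (2^j q + k)`. If it is the identity then (`q = 0`) `k = 0` and (`q = 1`)
`2^j = 2^i` in `ZMod M`. For `M = 2^(2N+1) - 1`, `N > |k| + i + j`, this gives `k = 0`, `i = j`. -/
theorem residually_finite (g : BG) (hg : g ≠ 1) :
    ∃ (m : ℕ) (f : BG →* Equiv.Perm (Fin m)), f g ≠ 1 := by
  obtain ⟨i, j, k, hgk⟩ := normal_form g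
  set L : ℕ := k.natAbs + i + j + 1 with hL
  set M : ℕ := 2 ^ (L + 1) - 1 with hMdef
  have hpow : 2 ^ (L + 1) = 2 * 2 ^ L := by rw [pow_succ]; ring
  have hLpos : 1 ≤ 2 ^ L := Nat.one_le_two_pow
  have hLM : 2 ^ L ≤ M := by omega
  have hModd : Odd M := by
    refine ⟨2 ^ L - 1, ?_⟩
    omega
  have hMpos : 0 < M := by omega
  have : NeZero M := ⟨hMpos.ne'⟩
  obtain ⟨f, hfa, hft⟩ := exists_perm_hom M hModd
  have hLlt : L < 2 ^ L := Nat.lt_two_pow_self
  -- powers of `t`
  have htp : ∀ (n : ℕ) (q : ZMod M), f (bof 1 ^ n) q = 2 ^ n * q := by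
    intro n
    induction n with
    | zero => intro q; simp
    | succ n ih =>
      intro q
      rw [pow_succ, map_mul, Equiv.Perm.mul_apply, ih, hft]
      ring
  have hap : ∀ (n : ℕ) (q : ZMod M), f (bof 0 ^ n) q = q + n := by
    intro n
    induction n with
    | zero => intro q; simp
    | succ n ih =>
      intro q
      rw [pow_succ, map_mul, Equiv.Perm.mul_apply, ih, hfa]
      push_cast
      ring
  have haz : ∀ (n : ℤ) (q : ZMod M), f (bof 0 ^ n) q = q + n := by
    intro n q
    rcases Int.eq_nat_or_neg n with ⟨m, rfl | rfl⟩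
    · rw [zpow_natCast, hap]
      push_cast
      ring
    · rw [zpow_neg, zpow_natCast, map_inv, Equiv.Perm.inv_eq_iff_eq, hap]
      push_cast
      ring
  by_cases hone : f g = 1
  · exfalso
    apply hg
    have hrel : f (bof 0 ^ k * bof 1 ^ j) = f (bof 1 ^ i) := by
      have h1 : bof 0 ^ k * bof 1 ^ j = bof 1 ^ i * g := by
        rw [hgk]; group
      rw [h1, map_mul, hone, mul_one]
    have hq : ∀ q : ZMod M, 2 ^ j * q + (k : ZMod M) = 2 ^ i * q := by
      intro q
      have := congrArg (fun p : Equiv.Perm (ZMod M) => p q) hrel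
      simp only [map_mul, Equiv.Perm.mul_apply] at this
      rw [htp, htp, haz] at this
      exact this
    have hk0 : (k : ZMod M) = 0 := by
      have := hq 0
      simpa using this
    have hk : k = 0 := by
      rw [ZMod.intCast_zmod_eq_zero_iff_dvd] at hk0
      have h2 : k.natAbs < M := by omega
      exact Int.eq_zero_of_abs_lt_dvd hk0 (by
        have : |k| = (k.natAbs : ℤ) := Int.abs_eq_natAbs k
        rw [this]
        exact_mod_cast h2)
    have hij : ((2 ^ j : ℕ) : ZMod M) = ((2 ^ i : ℕ) : ZMod M) := by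
      have := hq 1
      rw [hk0] at this
      push_cast
      simpa using this
    have hj : 2 ^ j < M := lt_of_lt_of_le (Nat.pow_lt_pow_right (by norm_num) (by omega)) hLM
    have hi : 2 ^ i < M := lt_of_lt_of_le (Nat.pow_lt_pow_right (by norm_num) (by omega)) hLM
    have h3 : 2 ^ j = 2 ^ i := by
      have h4 := (ZMod.natCast_eq_natCast_iff' _ _ _).1 hij
      rwa [Nat.mod_eq_of_lt hj, Nat.mod_eq_of_lt hi] at h4
    have h5 : j = i := Nat.pow_right_injective (le_refl 2) h3
    rw [hgk, hk, h5]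
    simp
  · refine ⟨M, (Equiv.permCongrHom (ZMod.finEquiv M).symm.toEquiv).toMonoidHom.comp f, ?_⟩
    intro h
    apply hone
    have h' : (Equiv.permCongrHom (ZMod.finEquiv M).symm.toEquiv) (f g) = 1 := h
    have := (Equiv.permCongrHom (ZMod.finEquiv M).symm.toEquiv).injective
      (h'.trans (map_one _).symm)
    exact this

end BS
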