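import Pool.Agent.W_24bb3a_h26.Red
import Pool.Agent.W_mrdp_h26.GrC

/-! The reduction is computable. -/

set_option autoImplicit false

namespace BS

/-- The systems depend computably on `a` (only the length of the replicated list varies). -/
theorem sys_computable {m : ℕ} (L : List (FreeGroup (Fin 2 ⊕ ((ℕ ⊕ ℕ) ⊕ Fin m)))) :
    Computable (fun a : ℕ => sys L a) := by
  have hrep : Primrec (fun a : ℕ => List.replicate a ((Sum.inl 1, false) : (Fin 2 ⊕ ℕ) × Bool)) := by
    have h1 : Primrec (Nat.rec (motive := fun _ => List ((Fin 2 ⊕ ℕ) × Bool)) []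
        (fun _ l => (Sum.inl 1, false) :: l)) := by
      apply Primrec.nat_rec₁
      exact Primrec.list_cons.comp₂ (Primrec₂.const _) Primrec₂.right
    refine h1.of_eq (fun a => ?_)
    induction a with
    | zero => rfl
    | succ n ih => rw [List.replicate_succ, ← ih]
  have h2 : Primrec (fun a : ℕ => sys L a) := by
    unfold sys eqn
    exact Primrec.list_cons.comp (Primrec.list_cons.comp (Primrec.const _) hrep) (Primrec.const _)
  exact h2.to_comp

/-- The Diophantine problem of `BG` is not computable. -/
theorem not_computable :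
    ¬ ComputablePred (fun S : List (List ((Fin 2 ⊕ ℕ) × Bool)) =>
      ∃ f : ℕ → BG, ∀ w ∈ S, FreeGroup.lift (Sum.elim (fun i : Fin 2 => bof i) f)
        (FreeGroup.mk w) = 1) := by
  intro hcomp
  obtain ⟨P, hP, hPn⟩ := Mrdp.exists_DP_not_computable
  obtain ⟨m, L, hL⟩ := DP_to_D2 hP
  apply hPn
  obtain ⟨D, hc⟩ := hcomp
  have key : ∀ a : ℕ, (∃ f : ℕ → BG, ∀ w ∈ sys L a, FreeGroup.lift (Sum.elim (fun i : Fin 2 => bof i) f)
        (FreeGroup.mk w) = 1) ↔ P a := fun a =>
    (solvable_transport (sys L a)).trans (sys_solvable_iff hL a)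
  have h3 := hc.comp (sys_computable L)
  exact ⟨fun a => decidable_of_iff _ (key a), h3.of_eq (fun a => by
    by_cases hp : P a
    · have := (key a).2 hp
      simp only [hp, decide_true]
      simpa using this
    · have h4 : ¬ _ := fun h => hp ((key a).1 h)
      simp only [hp, decide_false]
      simpa using h4)⟩

end BS
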