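import Pool.Agent.W_24bb3a_h26.Df

/-! The relations of the paper proof (proofs row 318), as relations on integers and dyadic numbers.
`MM n = 2^n - 1`; `Cg M u v` : `u = v` modulo `M` in `ℤ[1/2]`. -/

set_option autoImplicit false

namespace BS

/-- `2^n - 1`. -/
def MM (n : ℤ) : ℚ := 2 ^ n - 1

/-- Congruence modulo `M` in the ring of dyadic numbers. -/
def Cg (M u v : ℚ) : Prop := ∃ w, Dy w ∧ u = v + M * w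

/-- Divisibility `n ∣ m` of integers. -/
def DvZ (n m : ℤ) : Prop := ∃ w, Dy w ∧ MM m = MM n * w

/-- For `k ≠ 0`: `k ∣ m` and `X ≡ m / k` modulo `2^k - 1`. -/
def RR (k m : ℤ) (X : ℚ) : Prop := ∃ w, Dy w ∧ MM m = MM k * X + MM k * (MM k * w)

/-- For `n ≠ 0` it implies `y ≡ x^2` modulo `2^n - 1`; conversely for `0 < n`. -/
def Sq (n : ℤ) (x y : ℚ) : Prop := ∃ U1 U2 : ℤ,
  (∃ w, Dy w ∧ (2 : ℚ) ^ U1 * 1 = 1 + MM n * x + MM n * (MM n * (MM n * w))) ∧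
  (∃ w, Dy w ∧ (2 : ℚ) ^ U2 * 1 = 1 + 2 * (MM n * x) + MM n * (MM n * (MM n * w))) ∧
  (∃ w, Dy w ∧ (2 : ℚ) ^ (U2 - 2 * U1) * 1 = 1 - MM n * (MM n * y) + MM n * (MM n * (MM n * w)))

/-- `n` is a power of 8. -/
def E8 (n : ℤ) : Prop :=
  (∃ c, n = 7 * c + 1) ∧ ∃ x, Dy x ∧ ∃ y, Dy y ∧ Sq n x y ∧ ∃ w, Dy w ∧ y + 9 = MM n * w

/-- `2^n - 1` divides `x^2 + (2^g - 1)^2` for some `x`. -/
def C1 (n g : ℤ) : Prop :=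
  ∃ x, Dy x ∧ ∃ y, Dy y ∧ Sq n x y ∧ ∃ w, Dy w ∧ y + MM g * (MM g * 1) = MM n * w

/-- `T'' = T * T'` for powers of 8 with `8 ∣ T'`, `8 T ∣ T''`. -/
def PP (T T' T'' : ℤ) : Prop := DvZ (T' - 1) (T'' - T) ∧ C1 (T'' - T) (2 * (T' - 1))

/-- `s ≥ 0`, `3 ∣ s` and `T = 2^s`. -/
def Ex (s T : ℤ) : Prop := E8 T ∧ ∃ P b B : ℤ, E8 P ∧ E8 b ∧ E8 B ∧ DvZ 8 P ∧
  DvZ (2 * s + 1) (P - 1) ∧ DvZ P b ∧ DvZ (8 * T) b ∧ DvZ (8 * T) B ∧ PP T b B ∧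
  ∃ w, Dy w ∧ MM B = 2 ^ s * MM b + MM b * (MM b * w)

/-- `0 ≤ s`. -/
def NN (s : ℤ) : Prop := ∃ T, Ex (3 * s) T

/-- `0 < k`, `3 ∣ k`, `m = k * x` (for `x` small compared with `2^k`). -/
def PR (k x m : ℤ) : Prop := NN (k - 1) ∧ (∃ c, k = 3 * c) ∧ ∃ T, Ex k T ∧ ∃ m' Kc N : ℤ,
  (∃ X, Dy X ∧ RR k m X ∧ RR (k + 1) m' X ∧ RR Kc N X) ∧
  DvZ k Kc ∧ DvZ (k + 1) Kc ∧ NN (Kc - 1) ∧ NN m ∧ NN m' ∧ NN N ∧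
  NN (T - 4 * m) ∧ NN (T - 4 * m') ∧ NN (T - 4 * N) ∧ x = m' - m

/-- `z = x * y` (for positive integers). -/
def MU (x y z : ℤ) : Prop := ∃ k m n : ℤ, PR k x m ∧ PR m y n ∧ PR k z n

/-- `z = x * y` for all integers. -/
def MZ (x y z : ℤ) : Prop := ∃ x1 x2 y1 y2 a b c d : ℤ,
  x = x1 - x2 ∧ y = y1 - y2 ∧ NN (x1 - 1) ∧ NN (x2 - 1) ∧ NN (y1 - 1) ∧ NN (y2 - 1) ∧
  MU x1 y1 a ∧ MU x1 y2 b ∧ MU x2 y1 c ∧ MU x2 y2 d ∧ z = a - b - c + d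

end BS
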