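import Pool.Agent.W_24bb3a_h26.FrC
import Pool.Agent.W_24bb3a_h26.Rel

/-! The relations of `Rel.lean` are definable. All by `D2.exZ`, `D2.exA`, `D2.and`, `D2.eqZ`,
`D2.eqA`, `D2.s10` ... and the term lemmas (`apply D2.exZ` leaves a goal in which the bound variable
is `n 0` and the old variables are shifted; use `show`/`beta_reduce` if necessary). -/

set_option autoImplicit false

namespace BS

/-- `MM l * f` is a term: `(2^l - 1) * f = 2^l * f - f`. -/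
theorem AT.Mmul {l : (ℕ → ℤ) → ℤ} (hl : LT l) {f : (ℕ → ℤ) → (ℕ → ℚ) → ℚ} (hf : AT f) :
    AT (fun n x => MM (l n) * f n x) := by
  have h := (AT.zmul hl hf).sub hf
  have e : (fun (n : ℕ → ℤ) (x : ℕ → ℚ) => MM (l n) * f n x) =
      fun n x => (2 : ℚ) ^ (l n) * f n x - f n x := by
    funext n x
    unfold MM
    ring
  rw [e]
  exact h

/-- `MM l` is a term (`f = 1`). -/
theorem AT.MM1 {l : (ℕ → ℤ) → ℤ} (hl : LT l) : AT (fun n _ => MM (l n)) := by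
  have h := AT.Mmul hl AT.one
  simpa using h

theorem AT.DefA_two {f : (ℕ → ℤ) → (ℕ → ℚ) → ℚ} (hf : AT f) : AT (fun n x => 2 * f n x) := by
  have h := AT.cmul 2 hf
  simpa using h

theorem AT.DefA_nine : AT (fun _ _ => 9) := by
  have h := AT.cmul 9 AT.one
  simpa using h

theorem D_DvZ : D2 (fun n _ => DvZ (n 0) (n 1)) := by
  unfold DvZ
  exact D2.exA (P := fun w n _ => MM (n 1) = MM (n 0) * w)
    (D2.eqA (AT.MM1 (LT.var 1)) (AT.Mmul (LT.var 0) (AT.var 0)))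

theorem D_RR : D2 (fun n x => RR (n 0) (n 1) (x 0)) := by
  unfold RR
  exact D2.exA (P := fun w n x => MM (n 1) = MM (n 0) * x 0 + MM (n 0) * (MM (n 0) * w))
    (D2.eqA (AT.MM1 (LT.var 1)) ((AT.Mmul (LT.var 0) (AT.var 1)).add
      (AT.Mmul (LT.var 0) (AT.Mmul (LT.var 0) (AT.var 0)))))

theorem D_Sq : D2 (fun n x => Sq (n 0) (x 0) (x 1)) := by
  unfold Sq
  refine D2.exZ (P := fun U1 n x => ∃ U2 : ℤ,
    (∃ w, Dy w ∧ (2 : ℚ) ^ U1 * 1 = 1 + MM (n 0) * x 0 + MM (n 0) * (MM (n 0) * (MM (n 0) * w))) ∧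
    (∃ w, Dy w ∧ (2 : ℚ) ^ U2 * 1 =
      1 + 2 * (MM (n 0) * x 0) + MM (n 0) * (MM (n 0) * (MM (n 0) * w))) ∧
    (∃ w, Dy w ∧ (2 : ℚ) ^ (U2 - 2 * U1) * 1 =
      1 - MM (n 0) * (MM (n 0) * x 1) + MM (n 0) * (MM (n 0) * (MM (n 0) * w)))) ?_
  refine D2.exZ (P := fun U2 n x =>
    (∃ w, Dy w ∧ (2 : ℚ) ^ (n 0) * 1 = 1 + MM (n 1) * x 0 + MM (n 1) * (MM (n 1) * (MM (n 1) * w))) ∧
    (∃ w, Dy w ∧ (2 : ℚ) ^ U2 * 1 =
      1 + 2 * (MM (n 1) * x 0) + MM (n 1) * (MM (n 1) * (MM (n 1) * w))) ∧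
    (∃ w, Dy w ∧ (2 : ℚ) ^ (U2 - 2 * n 0) * 1 =
      1 - MM (n 1) * (MM (n 1) * x 1) + MM (n 1) * (MM (n 1) * (MM (n 1) * w)))) ?_
  have hc : AT (fun (n : ℕ → ℤ) x => MM (n 2) * (MM (n 2) * (MM (n 2) * x 0))) :=
    AT.Mmul (LT.var 2) (AT.Mmul (LT.var 2) (AT.Mmul (LT.var 2) (AT.var 0)))
  refine D2.and ?_ (D2.and ?_ ?_)
  · exact D2.exA (P := fun w n x => (2 : ℚ) ^ (n 1) * 1 =
      1 + MM (n 2) * x 0 + MM (n 2) * (MM (n 2) * (MM (n 2) * w)))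
      (D2.eqA (AT.zmul (LT.var 1) AT.one) ((AT.one.add (AT.Mmul (LT.var 2) (AT.var 1))).add hc))
  · exact D2.exA (P := fun w n x => (2 : ℚ) ^ (n 0) * 1 =
      1 + 2 * (MM (n 2) * x 0) + MM (n 2) * (MM (n 2) * (MM (n 2) * w)))
      (D2.eqA (AT.zmul (LT.var 0) AT.one)
        ((AT.one.add (AT.DefA_two (AT.Mmul (LT.var 2) (AT.var 1)))).add hc))
  · exact D2.exA (P := fun w n x => (2 : ℚ) ^ (n 0 - 2 * n 1) * 1 =
      1 - MM (n 2) * (MM (n 2) * x 1) + MM (n 2) * (MM (n 2) * (MM (n 2) * w)))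
      (D2.eqA (AT.zmul ((LT.var 0).sub (LT.cmul 2 (LT.var 1))) AT.one)
        ((AT.one.sub (AT.Mmul (LT.var 2) (AT.Mmul (LT.var 2) (AT.var 2)))).add hc))

theorem D_E8 : D2 (fun n _ => E8 (n 0)) := by
  unfold E8
  refine D2.and ?_ ?_
  · exact D2.exZ (P := fun c n _ => n 0 = 7 * c + 1)
      (D2.eqZ (LT.var 1) ((LT.cmul 7 (LT.var 0)).add (LT.const 1)))
  · refine D2.exA (P := fun x n _ => ∃ y, Dy y ∧ Sq (n 0) x y ∧ ∃ w, Dy w ∧ y + 9 = MM (n 0) * w) ?_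
    refine D2.exA (P := fun y n x => Sq (n 0) (x 0) y ∧ ∃ w, Dy w ∧ y + 9 = MM (n 0) * w) ?_
    refine D2.and ?_ ?_
    · exact D2.s12 (P := Sq) D_Sq (LT.var 0) (AT.var 1) (AT.var 0)
    · exact D2.exA (P := fun w n x => x 0 + 9 = MM (n 0) * w)
        (D2.eqA ((AT.var 1).add AT.DefA_nine) (AT.Mmul (LT.var 0) (AT.var 0)))

theorem D_C1 : D2 (fun n _ => C1 (n 0) (n 1)) := by
  unfold C1
  refine D2.exA (P := fun x n _ => ∃ y, Dy y ∧ Sq (n 0) x y ∧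
    ∃ w, Dy w ∧ y + MM (n 1) * (MM (n 1) * 1) = MM (n 0) * w) ?_
  refine D2.exA (P := fun y n x => Sq (n 0) (x 0) y ∧
    ∃ w, Dy w ∧ y + MM (n 1) * (MM (n 1) * 1) = MM (n 0) * w) ?_
  refine D2.and ?_ ?_
  · exact D2.s12 (P := Sq) D_Sq (LT.var 0) (AT.var 1) (AT.var 0)
  · exact D2.exA (P := fun w n x => x 0 + MM (n 1) * (MM (n 1) * 1) = MM (n 0) * w)
      (D2.eqA ((AT.var 1).add (AT.Mmul (LT.var 1) (AT.Mmul (LT.var 1) AT.one)))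
        (AT.Mmul (LT.var 0) (AT.var 0)))

theorem D_PP : D2 (fun n _ => PP (n 0) (n 1) (n 2)) := by
  unfold PP
  exact D2.and
    (D2.s20 (P := DvZ) D_DvZ ((LT.var 1).sub (LT.const 1)) ((LT.var 2).sub (LT.var 0)))
    (D2.s20 (P := C1) D_C1 ((LT.var 2).sub (LT.var 0))
      (LT.cmul 2 ((LT.var 1).sub (LT.const 1))))

end BS
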