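import Pool.Agent.W_24bb3a_h26.DefA

/-! The relations of `Rel.lean` are definable, continued. -/

set_option autoImplicit false

namespace BS

theorem D_Ex : D2 (fun n _ => Ex (n 0) (n 1)) := by
  unfold Ex
  refine D2.and (D2.s10 D_E8 (LT.var 1)) ?_
  refine D2.exZ (D2.exZ (D2.exZ ?_))
  -- `B, b, P, s, T` are the variables `0, 1, 2, 3, 4`
  refine D2.and (D2.s10 D_E8 (LT.var 2)) ?_
  refine D2.and (D2.s10 D_E8 (LT.var 1)) ?_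
  refine D2.and (D2.s10 D_E8 (LT.var 0)) ?_
  refine D2.and (D2.s20 D_DvZ (LT.const 8) (LT.var 2)) ?_
  refine D2.and (D2.s20 D_DvZ (LT.add (LT.cmul 2 (LT.var 3)) (LT.const 1))
    (LT.sub (LT.var 2) (LT.const 1))) ?_
  refine D2.and (D2.s20 D_DvZ (LT.var 2) (LT.var 1)) ?_
  refine D2.and (D2.s20 D_DvZ (LT.cmul 8 (LT.var 4)) (LT.var 1)) ?_
  refine D2.and (D2.s20 D_DvZ (LT.cmul 8 (LT.var 4)) (LT.var 0)) ?_
  refine D2.and (D2.s30 D_PP (LT.var 4) (LT.var 1) (LT.var 0)) ?_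
  refine D2.exA (D2.eqA (AT.MM1 (LT.var 0)) ?_)
  exact AT.add (AT.zmul (LT.var 3) (AT.MM1 (LT.var 1)))
    (AT.Mmul (LT.var 1) (AT.Mmul (LT.var 1) (AT.var 0)))

theorem D_NN : D2 (fun n _ => NN (n 0)) := by
  unfold NN
  exact D2.exZ (D2.s20 D_Ex (LT.cmul 3 (LT.var 1)) (LT.var 0))

theorem D_PR : D2 (fun n _ => PR (n 0) (n 1) (n 2)) := by
  unfold PR
  refine D2.and (D2.s10 D_NN (LT.sub (LT.var 0) (LT.const 1))) ?_
  refine D2.and (D2.exZ (D2.eqZ (LT.var 1) (LT.cmul 3 (LT.var 0)))) ?_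
  refine D2.exZ ?_
  -- `T, k, x, m`
  refine D2.and (D2.s20 D_Ex (LT.var 1) (LT.var 0)) ?_
  refine D2.exZ (D2.exZ (D2.exZ ?_))
  -- `N, Kc, m', T, k, x, m` are the variables `0, 1, 2, 3, 4, 5, 6`
  refine D2.and (D2.exA (D2.and (D2.s21 D_RR (LT.var 4) (LT.var 6) (AT.var 0))
    (D2.and (D2.s21 D_RR (LT.add (LT.var 4) (LT.const 1)) (LT.var 2) (AT.var 0))
      (D2.s21 D_RR (LT.var 1) (LT.var 0) (AT.var 0))))) ?_
  refine D2.and (D2.s20 D_DvZ (LT.var 4) (LT.var 1)) ?_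
  refine D2.and (D2.s20 D_DvZ (LT.add (LT.var 4) (LT.const 1)) (LT.var 1)) ?_
  refine D2.and (D2.s10 D_NN (LT.sub (LT.var 1) (LT.const 1))) ?_
  refine D2.and (D2.s10 D_NN (LT.var 6)) ?_
  refine D2.and (D2.s10 D_NN (LT.var 2)) ?_
  refine D2.and (D2.s10 D_NN (LT.var 0)) ?_
  refine D2.and (D2.s10 D_NN (LT.sub (LT.var 3) (LT.cmul 4 (LT.var 6)))) ?_
  refine D2.and (D2.s10 D_NN (LT.sub (LT.var 3) (LT.cmul 4 (LT.var 2)))) ?_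
  refine D2.and (D2.s10 D_NN (LT.sub (LT.var 3) (LT.cmul 4 (LT.var 0)))) ?_
  exact D2.eqZ (LT.var 5) (LT.sub (LT.var 2) (LT.var 6))

theorem D_MU : D2 (fun n _ => MU (n 0) (n 1) (n 2)) := by
  unfold MU
  refine D2.exZ (D2.exZ (D2.exZ ?_))
  -- `n, m, k, x, y, z`
  refine D2.and (D2.s30 D_PR (LT.var 2) (LT.var 3) (LT.var 1)) ?_
  refine D2.and (D2.s30 D_PR (LT.var 1) (LT.var 4) (LT.var 0)) ?_
  exact D2.s30 D_PR (LT.var 2) (LT.var 5) (LT.var 0)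

theorem D_MZ : D2 (fun n _ => MZ (n 0) (n 1) (n 2)) := by
  unfold MZ
  refine D2.exZ (D2.exZ (D2.exZ (D2.exZ (D2.exZ (D2.exZ (D2.exZ (D2.exZ ?_)))))))
  -- `d, c, b, a, y2, y1, x2, x1, x, y, z`
  refine D2.and (D2.eqZ (LT.var 8) (LT.sub (LT.var 7) (LT.var 6))) ?_
  refine D2.and (D2.eqZ (LT.var 9) (LT.sub (LT.var 5) (LT.var 4))) ?_
  refine D2.and (D2.s10 D_NN (LT.sub (LT.var 7) (LT.const 1))) ?_
  refine D2.and (D2.s10 D_NN (LT.sub (LT.var 6) (LT.const 1))) ?_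
  refine D2.and (D2.s10 D_NN (LT.sub (LT.var 5) (LT.const 1))) ?_
  refine D2.and (D2.s10 D_NN (LT.sub (LT.var 4) (LT.const 1))) ?_
  refine D2.and (D2.s30 D_MU (LT.var 7) (LT.var 5) (LT.var 3)) ?_
  refine D2.and (D2.s30 D_MU (LT.var 7) (LT.var 4) (LT.var 2)) ?_
  refine D2.and (D2.s30 D_MU (LT.var 6) (LT.var 5) (LT.var 1)) ?_
  refine D2.and (D2.s30 D_MU (LT.var 6) (LT.var 4) (LT.var 0)) ?_
  exact D2.eqZ (LT.var 10)
    (LT.add (LT.sub (LT.sub (LT.var 3) (LT.var 2)) (LT.var 1)) (LT.var 0))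

end BS
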