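import Mathlib

/-!
# MP_24bb3a_al: the group `H = ℤ[1/2] ⋊ ℤ` (isomorphic to `BS(1,2)`) and definability in it

* `Dy x` : the rational number `x` is dyadic.
* `H` : pairs `(x, n)`, `x` dyadic, `n : ℤ`, with `(x, n) (y, m) = (x + 2^n y, n + m)`.
* `mkA x`, `mkT n` : the elements `(x, 0)` and `(0, n)`; `ga = (1, 0)`, `gt = (0, 1)`.
* `ev v w` : the value of the word `w` with constants `ga` (letter `inl 0`), `gt` (letter `inl 1`)
  and variables (letters `inr i`) under the assignment `v`.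
* `D2 P` : the relation `P` between integers `n 0, n 1, ...` and dyadic numbers `x 0, x 1, ...` is
  given by a finite system of equations over `H` (with auxiliary variables), an integer `n i` being
  represented by `mkT (n i)` and a dyadic number `x j` by `mkA (x j)`.
* `LT l` : the integer `l n` is the value of a word (in the variables `n i`).
* `AT f` : the dyadic number `f n x` is the value of a word (in the variables `n i`, `x j`).
-/

set_option autoImplicit false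

namespace BS

/-- Dyadic rational numbers. -/
def Dy (x : ℚ) : Prop := ∃ (k : ℤ) (i : ℕ), x * 2 ^ i = k

theorem Dy.int (k : ℤ) : Dy (k : ℚ) := ⟨k, 0, by simp⟩

theorem Dy.nat (k : ℕ) : Dy (k : ℚ) := ⟨k, 0, by simp⟩

theorem Dy.zero : Dy 0 := ⟨0, 0, by simp⟩

theorem Dy.one : Dy 1 := ⟨1, 0, by simp⟩

theorem Dy.two : Dy 2 := ⟨2, 0, by norm_num⟩

theorem Dy.add {x y : ℚ} (hx : Dy x) (hy : Dy y) : Dy (x + y) := by
  obtain ⟨k, i, hk⟩ := hx
  obtain ⟨l, j, hl⟩ := hy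
  refine ⟨k * 2 ^ j + l * 2 ^ i, i + j, ?_⟩
  push_cast
  rw [← hk, ← hl]
  ring

theorem Dy.neg {x : ℚ} (hx : Dy x) : Dy (-x) := by
  obtain ⟨k, i, hk⟩ := hx
  exact ⟨-k, i, by push_cast; rw [← hk]; ring⟩

theorem Dy.sub {x y : ℚ} (hx : Dy x) (hy : Dy y) : Dy (x - y) := by
  rw [sub_eq_add_neg]; exact hx.add hy.neg

theorem Dy.mul {x y : ℚ} (hx : Dy x) (hy : Dy y) : Dy (x * y) := by
  obtain ⟨k, i, hk⟩ := hx
  obtain ⟨l, j, hl⟩ := hy
  refine ⟨k * l, i + j, ?_⟩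
  push_cast
  rw [← hk, ← hl]
  ring

theorem Dy.pow {x : ℚ} (hx : Dy x) (n : ℕ) : Dy (x ^ n) := by
  induction n with
  | zero => simpa using Dy.one
  | succ n ih => rw [pow_succ]; exact ih.mul hx

theorem Dy.zpow (n : ℤ) : Dy ((2 : ℚ) ^ n) := by
  rcases n.eq_nat_or_neg with ⟨k, rfl | rfl⟩
  · rw [zpow_natCast]; exact Dy.two.pow k
  · refine ⟨1, k, ?_⟩
    rw [zpow_neg, zpow_natCast]
    have : (2 : ℚ) ^ k ≠ 0 := pow_ne_zero _ (by norm_num)
    rw [inv_mul_cancel₀ this]; simp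

/-- The group `ℤ[1/2] ⋊ ℤ`. -/
@[ext] structure H where
  x : ℚ
  n : ℤ
  dy : Dy x

instance : Mul H :=
  ⟨fun g h => ⟨g.x + 2 ^ g.n * h.x, g.n + h.n, g.dy.add ((Dy.zpow _).mul h.dy)⟩⟩

instance : One H := ⟨⟨0, 0, Dy.zero⟩⟩

instance : Inv H := ⟨fun g => ⟨-(2 ^ (-g.n) * g.x), -g.n, ((Dy.zpow _).mul g.dy).neg⟩⟩

@[simp] theorem mul_x (g h : H) : (g * h).x = g.x + 2 ^ g.n * h.x := rfl

@[simp] theorem mul_n (g h : H) : (g * h).n = g.n + h.n := rfl

@[simp] theorem one_x : (1 : H).x = 0 := rfl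

@[simp] theorem one_n : (1 : H).n = 0 := rfl

@[simp] theorem inv_x (g : H) : (g⁻¹).x = -(2 ^ (-g.n) * g.x) := rfl

@[simp] theorem inv_n (g : H) : (g⁻¹).n = -g.n := rfl

instance : Group H := Group.ofLeftAxioms
  (fun a b c => by
    ext
    · simp only [mul_x, mul_n]
      rw [zpow_add₀ (by norm_num : (2 : ℚ) ≠ 0)]
      ring
    · simp only [mul_n]; ring)
  (fun a => by
    ext
    · simp
    · simp)
  (fun a => by
    ext
    · simp
    · simp)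

/-- The element `(x, 0)`. -/
def mkA (x : ℚ) (hx : Dy x) : H := ⟨x, 0, hx⟩

/-- The element `(0, n)`. -/
def mkT (n : ℤ) : H := ⟨0, n, Dy.zero⟩

/-- The generator `a = (1, 0)`. -/
def ga : H := mkA 1 Dy.one

/-- The generator `t = (0, 1)`. -/
def gt : H := mkT 1

/-- The two constants. -/
def cst : Fin 2 → H := ![ga, gt]

/-- Value of a word with constants under an assignment of the variables. -/
def ev {α : Type} (v : α → H) : FreeGroup (Fin 2 ⊕ α) →* H := FreeGroup.lift (Sum.elim cst v)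

/-- The assignment given by integers `n i` and dyadic numbers `x j`. -/
def env (n : ℕ → ℤ) (x : ℕ → ℚ) (hx : ∀ j, Dy (x j)) : ℕ ⊕ ℕ → H :=
  Sum.elim (fun i => mkT (n i)) (fun j => mkA (x j) (hx j))

/-- Definability by a finite system of equations over `H` with auxiliary variables. -/
def D2 (P : (ℕ → ℤ) → (ℕ → ℚ) → Prop) : Prop :=
  ∃ (m : ℕ) (L : List (FreeGroup (Fin 2 ⊕ ((ℕ ⊕ ℕ) ⊕ Fin m)))),
    ∀ (n : ℕ → ℤ) (x : ℕ → ℚ) (hx : ∀ j, Dy (x j)),
      P n x ↔ ∃ u : Fin m → H, ∀ w ∈ L, ev (Sum.elim (env n x hx) u) w = 1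

/-- Integer terms. -/
def LT (l : (ℕ → ℤ) → ℤ) : Prop :=
  ∃ w : FreeGroup (Fin 2 ⊕ (ℕ ⊕ ℕ)), ∀ (n : ℕ → ℤ) (x : ℕ → ℚ) (hx : ∀ j, Dy (x j)),
    ev (env n x hx) w = mkT (l n)

/-- Dyadic terms. -/
def AT (f : (ℕ → ℤ) → (ℕ → ℚ) → ℚ) : Prop :=
  ∃ w : FreeGroup (Fin 2 ⊕ (ℕ ⊕ ℕ)), ∀ (n : ℕ → ℤ) (x : ℕ → ℚ) (hx : ∀ j, Dy (x j)),
    ∃ h : Dy (f n x), ev (env n x hx) w = mkA (f n x) h

end BS
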