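import Pool.Agent.W_24bb3a_h26.Df

/-! Terms: closure of `LT` and `AT`. `H` has `mkT m * mkT n = mkT (m+n)`,
`mkA x * mkA y = mkA (x+y)`, `mkT n * mkA x * (mkT n)⁻¹ = mkA (2^n * x)`. -/

set_option autoImplicit false

namespace BS

theorem mkT_mul (m n : ℤ) : mkT m * mkT n = mkT (m + n) := by
  ext <;> simp [mkT]

theorem mkT_inv (m : ℤ) : (mkT m)⁻¹ = mkT (-m) := by
  ext <;> simp [mkT]

theorem mkT_zero : mkT 0 = 1 := by
  ext <;> simp [mkT]

theorem mkT_inj {m n : ℤ} : mkT m = mkT n ↔ m = n := by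
  constructor
  · intro h
    exact congrArg H.n h
  · rintro rfl; rfl

theorem mkA_mul {x y : ℚ} (hx : Dy x) (hy : Dy y) : mkA x hx * mkA y hy = mkA (x + y) (hx.add hy) := by
  ext <;> simp [mkA]

theorem mkA_inv {x : ℚ} (hx : Dy x) : (mkA x hx)⁻¹ = mkA (-x) hx.neg := by
  ext <;> simp [mkA]

theorem mkA_zero : mkA 0 Dy.zero = 1 := by
  ext <;> simp [mkA]

theorem mkA_inj {x y : ℚ} (hx : Dy x) (hy : Dy y) : mkA x hx = mkA y hy ↔ x = y := by
  constructor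
  · intro h
    exact congrArg H.x h
  · rintro rfl; rfl

theorem mkT_conj (n : ℤ) {x : ℚ} (hx : Dy x) :
    mkT n * mkA x hx * (mkT n)⁻¹ = mkA (2 ^ n * x) ((Dy.zpow n).mul hx) := by
  ext <;> simp [mkA, mkT]

/-- Elements commuting with `gt` are the `mkT n`. -/
theorem commute_gt_iff (g : H) : g * gt = gt * g ↔ ∃ n, g = mkT n := by
  constructor
  · intro h
    refine ⟨g.n, ?_⟩
    have hx := congrArg H.x h
    simp only [mul_x, gt, mkT, mul_zero, add_zero, zero_add, zpow_one] at hx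
    ext
    · simp only [mkT]; linarith
    · rfl
  · rintro ⟨n, rfl⟩
    rw [gt, mkT_mul, mkT_mul, add_comm]

/-- Elements commuting with `ga` are the `mkA x`. -/
theorem commute_ga_iff (g : H) : g * ga = ga * g ↔ ∃ (x : ℚ) (h : Dy x), g = mkA x h := by
  constructor
  · intro h
    refine ⟨g.x, g.dy, ?_⟩
    have hx := congrArg H.x h
    simp only [mul_x, ga, mkA, mul_one, zpow_zero, one_mul] at hx
    have h2 : (2 : ℚ) ^ g.n = 2 ^ (0 : ℤ) := by rw [zpow_zero]; linarith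
    have h3 : g.n = 0 := zpow_right_injective₀ (by norm_num) (by norm_num) h2
    ext
    · rfl
    · simpa [mkA] using h3
  · rintro ⟨x, hx, rfl⟩
    rw [ga, mkA_mul, mkA_mul]
    ext
    · simp only [mkA]; ring
    · rfl

theorem LT.var (i : ℕ) : LT (fun n => n i) :=
  ⟨FreeGroup.of (Sum.inr (Sum.inl i)), fun n x hx => by simp [ev, env]⟩

theorem mkT_zpow (m c : ℤ) : (mkT m) ^ c = mkT (c * m) := by
  have hn : ∀ k : ℕ, (mkT m) ^ k = mkT (k * m) := by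
    intro k
    induction k with
    | zero => simp [mkT_zero]
    | succ k ih => rw [pow_succ, ih, mkT_mul]; congr 1; push_cast; ring
  rcases c.eq_nat_or_neg with ⟨k, rfl | rfl⟩
  · rw [zpow_natCast, hn]
  · rw [zpow_neg, zpow_natCast, hn, mkT_inv]; congr 1; ring

theorem mkA_zpow {x : ℚ} (hx : Dy x) (c : ℤ) : (mkA x hx) ^ c = mkA (c * x) ((Dy.int c).mul hx) := by
  have hn : ∀ k : ℕ, (mkA x hx) ^ k = mkA (k * x) ((Dy.nat k).mul hx) := by
    intro k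
    induction k with
    | zero =>
      rw [pow_zero, ← mkA_zero, mkA_inj]; simp
    | succ k ih => rw [pow_succ, ih, mkA_mul, mkA_inj]; push_cast; ring
  rcases c.eq_nat_or_neg with ⟨k, rfl | rfl⟩
  · rw [zpow_natCast, hn, mkA_inj]; simp
  · rw [zpow_neg, zpow_natCast, hn, mkA_inv, mkA_inj]; push_cast; ring

theorem LT.const (c : ℤ) : LT (fun _ => c) := by
  refine ⟨(FreeGroup.of (Sum.inl 1)) ^ c, fun n x hx => ?_⟩
  rw [map_zpow]
  have : ev (env n x hx) (FreeGroup.of (Sum.inl 1)) = mkT 1 := by simp [ev, cst, gt]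
  rw [this, mkT_zpow, mul_one]

theorem LT.add {l m : (ℕ → ℤ) → ℤ} (hl : LT l) (hm : LT m) : LT (fun n => l n + m n) := by
  obtain ⟨w, hw⟩ := hl
  obtain ⟨v, hv⟩ := hm
  refine ⟨w * v, fun n x hx => ?_⟩
  rw [map_mul, hw, hv, mkT_mul]

theorem LT.neg {l : (ℕ → ℤ) → ℤ} (hl : LT l) : LT (fun n => - l n) := by
  obtain ⟨w, hw⟩ := hl
  refine ⟨w⁻¹, fun n x hx => ?_⟩
  rw [map_inv, hw, mkT_inv]

theorem LT.sub {l m : (ℕ → ℤ) → ℤ} (hl : LT l) (hm : LT m) : LT (fun n => l n - m n) := by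
  have := hl.add hm.neg
  simpa [sub_eq_add_neg] using this

/-- Multiplication by a fixed integer (power of the word). -/
theorem LT.cmul (c : ℤ) {l : (ℕ → ℤ) → ℤ} (hl : LT l) : LT (fun n => c * l n) := by
  obtain ⟨w, hw⟩ := hl
  refine ⟨w ^ c, fun n x hx => ?_⟩
  rw [map_zpow, hw, mkT_zpow]

theorem AT.var (j : ℕ) : AT (fun _ x => x j) :=
  ⟨FreeGroup.of (Sum.inr (Sum.inr j)), fun n x hx => ⟨hx j, by simp [ev, env]⟩⟩

theorem AT.one : AT (fun _ _ => 1) :=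
  ⟨FreeGroup.of (Sum.inl 0), fun n x hx => ⟨Dy.one, by simp [ev, cst, ga]⟩⟩

theorem AT.zero : AT (fun _ _ => 0) :=
  ⟨1, fun n x hx => ⟨Dy.zero, by rw [map_one, mkA_zero]⟩⟩

theorem AT.add {f g : (ℕ → ℤ) → (ℕ → ℚ) → ℚ} (hf : AT f) (hg : AT g) :
    AT (fun n x => f n x + g n x) := by
  obtain ⟨w, hw⟩ := hf
  obtain ⟨v, hv⟩ := hg
  refine ⟨w * v, fun n x hx => ?_⟩
  obtain ⟨h1, h2⟩ := hw n x hx
  obtain ⟨h3, h4⟩ := hv n x hx
  exact ⟨h1.add h3, by rw [map_mul, h2, h4, mkA_mul]⟩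

theorem AT.neg {f : (ℕ → ℤ) → (ℕ → ℚ) → ℚ} (hf : AT f) : AT (fun n x => - f n x) := by
  obtain ⟨w, hw⟩ := hf
  refine ⟨w⁻¹, fun n x hx => ?_⟩
  obtain ⟨h1, h2⟩ := hw n x hx
  exact ⟨h1.neg, by rw [map_inv, h2, mkA_inv]⟩

theorem AT.sub {f g : (ℕ → ℤ) → (ℕ → ℚ) → ℚ} (hf : AT f) (hg : AT g) :
    AT (fun n x => f n x - g n x) := by
  have := hf.add hg.neg
  simpa [sub_eq_add_neg] using this

/-- Multiplication by a fixed integer (power of the word). -/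
theorem AT.cmul (c : ℤ) {f : (ℕ → ℤ) → (ℕ → ℚ) → ℚ} (hf : AT f) :
    AT (fun n x => (c : ℚ) * f n x) := by
  obtain ⟨w, hw⟩ := hf
  refine ⟨w ^ c, fun n x hx => ?_⟩
  obtain ⟨h1, h2⟩ := hw n x hx
  exact ⟨(Dy.int c).mul h1, by rw [map_zpow, h2, mkA_zpow]⟩

/-- Multiplication by `2^l` (conjugation). -/
theorem AT.zmul {l : (ℕ → ℤ) → ℤ} (hl : LT l) {f : (ℕ → ℤ) → (ℕ → ℚ) → ℚ} (hf : AT f) :
    AT (fun n x => (2 : ℚ) ^ l n * f n x) := by
  obtain ⟨v, hv⟩ := hl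
  obtain ⟨w, hw⟩ := hf
  refine ⟨v * w * v⁻¹, fun n x hx => ?_⟩
  obtain ⟨h1, h2⟩ := hw n x hx
  exact ⟨(Dy.zpow _).mul h1, by rw [map_mul, map_mul, map_inv, h2, hv, mkT_conj]⟩

end BS
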