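import Pool.Agent.W_24bb3a_h26.FrA

/-! Closure of `D2` under conjunction, quantifiers, substitution. -/

set_option autoImplicit false

namespace BS

theorem D2.congr {P Q : (ℕ → ℤ) → (ℕ → ℚ) → Prop} (h : D2 P)
    (e : ∀ n x, (∀ j, Dy (x j)) → (P n x ↔ Q n x)) : D2 Q := by
  obtain ⟨m, L, hL⟩ := h
  exact ⟨m, L, fun n x hx => (e n x hx).symm.trans (hL n x hx)⟩

theorem FrB_ev_map {α β : Type} (ψ : α → β) (v : β → H) (w : FreeGroup (Fin 2 ⊕ α)) :
    ev v (FreeGroup.map (Sum.map id ψ) w) = ev (v ∘ ψ) w := by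
  have h : (ev v).comp (FreeGroup.map (Sum.map id ψ)) = ev (v ∘ ψ) := by
    refine FreeGroup.ext_hom _ _ fun a => ?_
    rw [MonoidHom.comp_apply, FreeGroup.map.of]
    unfold ev
    rw [FreeGroup.lift_apply_of, FreeGroup.lift_apply_of]
    rcases a with a | a <;> rfl
  exact DFunLike.congr_fun h w

theorem FrB_comm {α : Type} (v : α → H) (a : α) (c : Fin 2) :
    ev v (FreeGroup.of (Sum.inr a) * FreeGroup.of (Sum.inl c) * (FreeGroup.of (Sum.inr a))⁻¹ *
      (FreeGroup.of (Sum.inl c))⁻¹) = 1 ↔ v a * cst c = cst c * v a := by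
  have h1 : ev v (FreeGroup.of (Sum.inr a)) = v a := by
    unfold ev
    rw [FreeGroup.lift_apply_of]
    rfl
  have h2 : ev v (FreeGroup.of (Sum.inl c)) = cst c := by
    unfold ev
    rw [FreeGroup.lift_apply_of]
    rfl
  rw [map_mul, map_mul, map_mul, map_inv, map_inv, h1, h2, mul_inv_eq_one, mul_inv_eq_iff_eq_mul]

theorem D2.true : D2 (fun _ _ => True) := by
  refine ⟨0, [], fun n x hx => ⟨fun _ => ⟨fun _ => 1, fun w hw => ?_⟩, fun _ => trivial⟩⟩
  exact absurd hw List.not_mem_nil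

/-- Conjunction: auxiliary variables `Fin m ⊕ Fin m' ≃ Fin (m + m')` (`Fin.append`), the words are
mapped by `FreeGroup.map` of the corresponding map of letters. -/
theorem D2.and {P Q : (ℕ → ℤ) → (ℕ → ℚ) → Prop} (hP : D2 P) (hQ : D2 Q) :
    D2 (fun n x => P n x ∧ Q n x) := by
  obtain ⟨m, L, hL⟩ := hP
  obtain ⟨m', L', hL'⟩ := hQ
  refine ⟨m + m', L.map (FreeGroup.map (Sum.map id (Sum.map id (Fin.castAdd m')))) ++
    L'.map (FreeGroup.map (Sum.map id (Sum.map id (Fin.natAdd m)))), fun n x hx => ?_⟩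
  show (P n x ∧ Q n x) ↔ _
  rw [hL n x hx, hL' n x hx]
  constructor
  · rintro ⟨⟨u, hu⟩, ⟨u', hu'⟩⟩
    refine ⟨Fin.append u u', fun w hw => ?_⟩
    rw [List.mem_append, List.mem_map, List.mem_map] at hw
    rcases hw with ⟨w, hw, rfl⟩ | ⟨w, hw, rfl⟩
    · rw [FrB_ev_map]
      have h1 : Sum.elim (env n x hx) (Fin.append u u') ∘ Sum.map id (Fin.castAdd m') =
          Sum.elim (env n x hx) u := by
        funext a
        rcases a with a | a
        · rfl
        · exact Fin.append_left u u' a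
      rw [h1]
      exact hu w hw
    · rw [FrB_ev_map]
      have h1 : Sum.elim (env n x hx) (Fin.append u u') ∘ Sum.map id (Fin.natAdd m) =
          Sum.elim (env n x hx) u' := by
        funext a
        rcases a with a | a
        · rfl
        · exact Fin.append_right u u' a
      rw [h1]
      exact hu' w hw
  · rintro ⟨u, hu⟩
    constructor
    · refine ⟨fun i => u (Fin.castAdd m' i), fun w hw => ?_⟩
      have h1 := hu _ (List.mem_append_left _ (List.mem_map_of_mem hw))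
      rw [FrB_ev_map] at h1
      rw [← h1]
      congr 1
      congr 1
      funext a
      rcases a with a | a <;> rfl
    · refine ⟨fun i => u (Fin.natAdd m i), fun w hw => ?_⟩
      have h1 := hu _ (List.mem_append_right _ (List.mem_map_of_mem hw))
      rw [FrB_ev_map] at h1
      rw [← h1]
      congr 1
      congr 1
      funext a
      rcases a with a | a <;> rfl

/-- renaming of the variables for `D2.exZ` -/
def FrB_psi (m : ℕ) : (ℕ ⊕ ℕ) ⊕ Fin m → (ℕ ⊕ ℕ) ⊕ Fin (m + 1)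
  | Sum.inl (Sum.inl 0) => Sum.inr 0
  | Sum.inl (Sum.inl (i + 1)) => Sum.inl (Sum.inl i)
  | Sum.inl (Sum.inr j) => Sum.inl (Sum.inr j)
  | Sum.inr k => Sum.inr k.succ

/-- renaming of the variables for `D2.exA` -/
def FrB_psi' (m : ℕ) : (ℕ ⊕ ℕ) ⊕ Fin m → (ℕ ⊕ ℕ) ⊕ Fin (m + 1)
  | Sum.inl (Sum.inr 0) => Sum.inr 0
  | Sum.inl (Sum.inr (i + 1)) => Sum.inl (Sum.inr i)
  | Sum.inl (Sum.inl j) => Sum.inl (Sum.inl j)
  | Sum.inr k => Sum.inr k.succ

/-- Integer quantifier: the new variable `z` is the auxiliary variable number `0`, add the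
equation `z * gt = gt * z` (`commute_gt_iff`); in the words of the given system replace the letter
of `n 0` by `z`, the letter of `n (i+1)` by the one of `n i` (`FreeGroup.map`). -/
theorem D2.exZ {P : ℤ → (ℕ → ℤ) → (ℕ → ℚ) → Prop}
    (h : D2 (fun n x => P (n 0) (fun i => n (i + 1)) x)) :
    D2 (fun n x => ∃ m : ℤ, P m n x) := by
  obtain ⟨m, L, hL⟩ := h
  refine ⟨m + 1, (FreeGroup.of (Sum.inr (Sum.inr 0)) * FreeGroup.of (Sum.inl 1) *
    (FreeGroup.of (Sum.inr (Sum.inr 0)))⁻¹ * (FreeGroup.of (Sum.inl 1))⁻¹) ::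
    L.map (FreeGroup.map (Sum.map id (FrB_psi m))), fun n x hx => ?_⟩
  have key : ∀ (z : ℤ) (u : Fin (m + 1) → H), u 0 = mkT z →
      Sum.elim (env n x hx) u ∘ FrB_psi m =
        Sum.elim (env (fun i => Nat.casesOn i z n) x hx) (fun i => u i.succ) := by
    intro z u hu
    funext a
    rcases a with (a | a) | a
    · cases a with
      | zero => exact hu
      | succ a => rfl
    · rfl
    · rfl
  constructor
  · rintro ⟨z, hz⟩
    obtain ⟨u, hu⟩ := (hL (fun i => Nat.casesOn i z n) x hx).1 hz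
    refine ⟨Fin.cons (mkT z) u, fun w hw => ?_⟩
    rw [List.mem_cons] at hw
    rcases hw with rfl | hw
    · rw [FrB_comm]
      exact (commute_gt_iff _).2 ⟨z, rfl⟩
    · rw [List.mem_map] at hw
      obtain ⟨w, hw, rfl⟩ := hw
      rw [FrB_ev_map, key z _ rfl]
      exact hu w hw
  · rintro ⟨u, hu⟩
    have h1 := hu _ List.mem_cons_self
    rw [FrB_comm] at h1
    obtain ⟨z, hz⟩ := (commute_gt_iff _).1 h1
    refine ⟨z, (hL (fun i => Nat.casesOn i z n) x hx).2 ⟨fun i => u i.succ, fun w hw => ?_⟩⟩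
    have h2 := hu _ (List.mem_cons_of_mem _ (List.mem_map_of_mem hw))
    rw [FrB_ev_map, key z u hz] at h2
    exact h2

/-- Dyadic quantifier, the same with `commute_ga_iff`. -/
theorem D2.exA {P : ℚ → (ℕ → ℤ) → (ℕ → ℚ) → Prop}
    (h : D2 (fun n x => P (x 0) n (fun i => x (i + 1)))) :
    D2 (fun n x => ∃ w : ℚ, Dy w ∧ P w n x) := by
  obtain ⟨m, L, hL⟩ := h
  refine ⟨m + 1, (FreeGroup.of (Sum.inr (Sum.inr 0)) * FreeGroup.of (Sum.inl 0) *
    (FreeGroup.of (Sum.inr (Sum.inr 0)))⁻¹ * (FreeGroup.of (Sum.inl 0))⁻¹) ::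
    L.map (FreeGroup.map (Sum.map id (FrB_psi' m))), fun n x hx => ?_⟩
  have hx' : ∀ (z : ℚ), Dy z → ∀ j, Dy ((fun i => Nat.casesOn i z x : ℕ → ℚ) j) := by
    intro z hz j
    cases j with
    | zero => exact hz
    | succ j => exact hx j
  have key : ∀ (z : ℚ) (hz : Dy z) (u : Fin (m + 1) → H), u 0 = mkA z hz →
      Sum.elim (env n x hx) u ∘ FrB_psi' m =
        Sum.elim (env n (fun i => Nat.casesOn i z x) (hx' z hz)) (fun i => u i.succ) := by
    intro z hz u hu
    funext a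
    rcases a with (a | a) | a
    · rfl
    · cases a with
      | zero => exact hu
      | succ a => rfl
    · rfl
  constructor
  · rintro ⟨z, hz, hzP⟩
    obtain ⟨u, hu⟩ := (hL n (fun i => Nat.casesOn i z x) (hx' z hz)).1 hzP
    refine ⟨Fin.cons (mkA z hz) u, fun w hw => ?_⟩
    rw [List.mem_cons] at hw
    rcases hw with rfl | hw
    · rw [FrB_comm]
      exact (commute_ga_iff _).2 ⟨z, hz, rfl⟩
    · rw [List.mem_map] at hw
      obtain ⟨w, hw, rfl⟩ := hw
      rw [FrB_ev_map, key z hz _ rfl]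
      exact hu w hw
  · rintro ⟨u, hu⟩
    have h1 := hu _ List.mem_cons_self
    rw [FrB_comm] at h1
    obtain ⟨z, hz, hu0⟩ := (commute_ga_iff _).1 h1
    refine ⟨z, hz, (hL n (fun i => Nat.casesOn i z x) (hx' z hz)).2
      ⟨fun i => u i.succ, fun w hw => ?_⟩⟩
    have h2 := hu _ (List.mem_cons_of_mem _ (List.mem_map_of_mem hw))
    rw [FrB_ev_map, key z hz u hu0] at h2
    exact h2

end BS
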