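import Pool.Agent.W_24bb3a_h26.FrB

/-! Closure of `D2`, continued: equations, substitution, blocks. -/

set_option autoImplicit false

namespace BS

/-- substitution of words for the variables -/
def FrC_sub {α β : Type} (σ : β → FreeGroup (Fin 2 ⊕ α)) :
    FreeGroup (Fin 2 ⊕ β) →* FreeGroup (Fin 2 ⊕ α) :=
  FreeGroup.lift (Sum.elim (fun i => FreeGroup.of (Sum.inl i)) σ)

theorem FrC_ev_sub {α β : Type} (v : α → H) (σ : β → FreeGroup (Fin 2 ⊕ α))
    (w : FreeGroup (Fin 2 ⊕ β)) : ev v (FrC_sub σ w) = ev (fun b => ev v (σ b)) w := by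
  have h : (ev v).comp (FrC_sub σ) = ev (fun b => ev v (σ b)) := by
    refine FreeGroup.ext_hom _ _ fun a => ?_
    rcases a with i | b
    · simp [ev, FrC_sub]
    · simp [ev, FrC_sub]
  exact DFunLike.congr_fun h w

/-- words in the variables as words in more variables -/
def FrC_emb (m : ℕ) (w : FreeGroup (Fin 2 ⊕ (ℕ ⊕ ℕ))) :
    FreeGroup (Fin 2 ⊕ ((ℕ ⊕ ℕ) ⊕ Fin m)) :=
  FrC_sub (fun b => FreeGroup.of (Sum.inr (Sum.inl b))) w

theorem FrC_ev_emb {m : ℕ} (v : ℕ ⊕ ℕ → H) (u : Fin m → H) (w : FreeGroup (Fin 2 ⊕ (ℕ ⊕ ℕ))) :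
    ev (Sum.elim v u) (FrC_emb m w) = ev v w := by
  rw [FrC_emb, FrC_ev_sub]
  congr 2
  funext b
  simp [ev]

theorem FrC_one {P : (ℕ → ℤ) → (ℕ → ℚ) → Prop} (w : FreeGroup (Fin 2 ⊕ (ℕ ⊕ ℕ)))
    (h : ∀ n x (hx : ∀ j, Dy (x j)), P n x ↔ ev (env n x hx) w = 1) : D2 P := by
  refine ⟨0, [FrC_emb 0 w], fun n x hx => ?_⟩
  rw [h n x hx]
  constructor
  · intro h1
    refine ⟨fun _ => 1, fun w' hw' => ?_⟩
    rw [List.mem_singleton.1 hw', FrC_ev_emb]
    exact h1
  · rintro ⟨u, hu⟩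
    have h1 := hu _ (List.mem_singleton.2 rfl)
    rwa [FrC_ev_emb] at h1

theorem D2.eqZ {l m : (ℕ → ℤ) → ℤ} (hl : LT l) (hm : LT m) : D2 (fun n _ => l n = m n) := by
  obtain ⟨w, hw⟩ := hl
  obtain ⟨v, hv⟩ := hm
  refine FrC_one (w * v⁻¹) fun n x hx => ?_
  rw [map_mul, map_inv, hw, hv, mul_inv_eq_one, mkT_inj]

theorem D2.eqA {f g : (ℕ → ℤ) → (ℕ → ℚ) → ℚ} (hf : AT f) (hg : AT g) :
    D2 (fun n x => f n x = g n x) := by
  obtain ⟨w, hw⟩ := hf
  obtain ⟨v, hv⟩ := hg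
  refine FrC_one (w * v⁻¹) fun n x hx => ?_
  obtain ⟨h1, h2⟩ := hw n x hx
  obtain ⟨h3, h4⟩ := hv n x hx
  rw [map_mul, map_inv, h2, h4, mul_inv_eq_one, mkA_inj]

/-- Substitution of terms for the variables: in every word replace the letters of `n i`, `x j` by
the words of the terms (`FreeGroup.lift`). -/
theorem D2.subst {P : (ℕ → ℤ) → (ℕ → ℚ) → Prop} (h : D2 P) {l : ℕ → (ℕ → ℤ) → ℤ}
    (hl : ∀ i, LT (l i)) {f : ℕ → (ℕ → ℤ) → (ℕ → ℚ) → ℚ} (hf : ∀ j, AT (f j)) :
    D2 (fun n x => P (fun i => l i n) (fun j => f j n x)) := by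
  obtain ⟨m, L, hL⟩ := h
  choose wl hwl using hl
  choose wf hwf using hf
  obtain ⟨σ, hσ⟩ : ∃ σ : ((ℕ ⊕ ℕ) ⊕ Fin m) → FreeGroup (Fin 2 ⊕ ((ℕ ⊕ ℕ) ⊕ Fin m)),
      σ = Sum.elim (Sum.elim (fun i => FrC_emb m (wl i)) (fun j => FrC_emb m (wf j)))
        (fun k => FreeGroup.of (Sum.inr (Sum.inr k))) := ⟨_, rfl⟩
  refine ⟨m, L.map (FrC_sub σ), fun n x hx => ?_⟩
  have hd : ∀ j, Dy (f j n x) := fun j => (hwf j n x hx).1
  refine (hL (fun i => l i n) (fun j => f j n x) hd).trans (exists_congr fun u => ?_)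
  have key : (fun b => ev (Sum.elim (env n x hx) u) (σ b)) =
      Sum.elim (env (fun i => l i n) (fun j => f j n x) hd) u := by
    funext b
    rcases b with (i | j) | k
    · rw [hσ]
      show ev (Sum.elim (env n x hx) u) (FrC_emb m (wl i)) = mkT (l i n)
      rw [FrC_ev_emb, hwl]
    · rw [hσ]
      show ev (Sum.elim (env n x hx) u) (FrC_emb m (wf j)) = mkA (f j n x) (hd j)
      rw [FrC_ev_emb]
      exact (hwf j n x hx).2
    · rw [hσ]
      simp [ev]
  constructor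
  · intro h1 w' hw'
    obtain ⟨w, hw, rfl⟩ := List.mem_map.1 hw'
    rw [FrC_ev_sub, key]
    exact h1 w hw
  · intro h1 w hw
    have h2 := h1 _ (List.mem_map.2 ⟨w, hw, rfl⟩)
    rwa [FrC_ev_sub, key] at h2

/-- The special cases of `D2.subst` used below. -/
theorem D2.s10 {P : ℤ → Prop} (h : D2 (fun n _ => P (n 0))) {l : (ℕ → ℤ) → ℤ} (hl : LT l) :
    D2 (fun n _ => P (l n)) := by
  exact h.subst (l := fun _ => l) (fun _ => hl) (f := fun j _ x => x j) fun j => AT.var j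

theorem D2.s20 {P : ℤ → ℤ → Prop} (h : D2 (fun n _ => P (n 0) (n 1))) {l m : (ℕ → ℤ) → ℤ}
    (hl : LT l) (hm : LT m) : D2 (fun n _ => P (l n) (m n)) := by
  have h1 := h.subst (l := fun i => if i = 0 then l else m)
    (fun i => by split_ifs; exacts [hl, hm]) (f := fun j _ x => x j) fun j => AT.var j
  simpa using h1

theorem D2.s30 {P : ℤ → ℤ → ℤ → Prop} (h : D2 (fun n _ => P (n 0) (n 1) (n 2)))
    {l m k : (ℕ → ℤ) → ℤ} (hl : LT l) (hm : LT m) (hk : LT k) :
    D2 (fun n _ => P (l n) (m n) (k n)) := by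
  have h1 := h.subst (l := fun i => if i = 0 then l else if i = 1 then m else k)
    (fun i => by split_ifs; exacts [hl, hm, hk]) (f := fun j _ x => x j)
    fun j => AT.var j
  simpa using h1

theorem D2.s21 {P : ℤ → ℤ → ℚ → Prop} (h : D2 (fun n x => P (n 0) (n 1) (x 0)))
    {l m : (ℕ → ℤ) → ℤ} (hl : LT l) (hm : LT m) {f : (ℕ → ℤ) → (ℕ → ℚ) → ℚ} (hf : AT f) :
    D2 (fun n x => P (l n) (m n) (f n x)) := by
  have h1 := h.subst (l := fun i => if i = 0 then l else m)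
    (fun i => by split_ifs; exacts [hl, hm]) (f := fun _ => f) fun _ => hf
  simpa using h1

theorem D2.s12 {P : ℤ → ℚ → ℚ → Prop} (h : D2 (fun n x => P (n 0) (x 0) (x 1)))
    {l : (ℕ → ℤ) → ℤ} (hl : LT l) {f g : (ℕ → ℤ) → (ℕ → ℚ) → ℚ} (hf : AT f) (hg : AT g) :
    D2 (fun n x => P (l n) (f n x) (g n x)) := by
  have h1 := h.subst (l := fun _ => l) (fun _ => hl) (f := fun j => if j = 0 then f else g)
    (fun i => by split_ifs; exacts [hf, hg])
  simpa using h1

/-- A block of integer quantifiers. Induction on `k` with `D2.exZ` (the variable `v 0` of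
`Fin.cons`/`Fin.cases` is `n 0`). -/
theorem D2.exBlock {k : ℕ} {P : (Fin k → ℤ) → (ℕ → ℤ) → (ℕ → ℚ) → Prop}
    (h : D2 (fun n x => P (fun i => n i.val) (fun i => n (i + k)) x)) :
    D2 (fun n x => ∃ v : Fin k → ℤ, P v n x) := by
  induction k with
  | zero =>
    refine h.congr fun n x _ => ?_
    constructor
    · intro h1
      exact ⟨_, h1⟩
    · rintro ⟨v, hv⟩
      have e : v = fun i => n i.val := Subsingleton.elim _ _
      rw [e] at hv
      exact hv
  | succ k ih =>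
    have h1 : D2 (fun n x => ∃ m : ℤ, P (Fin.cons m (fun i : Fin k => n i.val))
        (fun i => n (i + k)) x) := by
      refine D2.exZ (P := fun m n x => P (Fin.cons m (fun i : Fin k => n i.val))
        (fun i => n (i + k)) x) ?_
      refine h.congr fun n x _ => ?_
      have e : (fun i : Fin (k + 1) => n i.val) =
          Fin.cons (n 0) (fun i : Fin k => n (i.val + 1)) := by
        funext i
        refine Fin.cases ?_ (fun i => ?_) i
        · rfl
        · rw [Fin.cons_succ]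
          rfl
      have e2 : (fun i => n (i + (k + 1))) = (fun i => n (i + k + 1)) := rfl
      rw [e, e2]
    have h2 := ih (P := fun v n x => ∃ m : ℤ, P (Fin.cons m v) n x) h1
    refine h2.congr fun n x _ => ?_
    constructor
    · rintro ⟨v, m, hv⟩
      exact ⟨_, hv⟩
    · rintro ⟨v, hv⟩
      refine ⟨Fin.tail v, v 0, ?_⟩
      rw [Fin.cons_self_tail]
      exact hv

/-- Finite conjunctions. -/
theorem D2.forallFin {k : ℕ} {P : Fin k → (ℕ → ℤ) → (ℕ → ℚ) → Prop} (h : ∀ i, D2 (P i)) :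
    D2 (fun n x => ∀ i, P i n x) := by
  induction k with
  | zero =>
    refine D2.true.congr fun n x _ => ?_
    constructor
    · intro _ i
      exact i.elim0
    · intro _
      trivial
  | succ k ih =>
    refine ((h 0).and (ih (P := fun i => P i.succ) fun i => h i.succ)).congr fun n x _ => ?_
    exact (Fin.forall_fin_succ (P := fun i => P i n x)).symm

end BS
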