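import Pool.Agent.W_24bb3a_h26.FrA

/-! The group `BS(1,2) = ⟨a, t | t a t⁻¹ = a²⟩` is isomorphic to `H` and residually finite. -/

set_option autoImplicit false

namespace BS

/-- The relator `t a t⁻¹ a⁻²` (`a` = generator 0, `t` = generator 1). -/
def rel : FreeGroup (Fin 2) :=
  FreeGroup.of 1 * FreeGroup.of 0 * (FreeGroup.of 1)⁻¹ * ((FreeGroup.of 0)⁻¹ * (FreeGroup.of 0)⁻¹)

/-- The one-relator group. -/
abbrev BG : Type := PresentedGroup ({rel} : Set (FreeGroup (Fin 2)))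

/-- The generators of `BG`. -/
def bof (i : Fin 2) : BG := PresentedGroup.of i

theorem bof_rel : bof 1 * bof 0 * (bof 1)⁻¹ = bof 0 * bof 0 := by
  have h : PresentedGroup.mk ({rel} : Set (FreeGroup (Fin 2))) rel = 1 :=
    PresentedGroup.one_of_mem (Set.mem_singleton rel)
  unfold rel at h
  simp only [map_mul, map_inv] at h
  change bof 1 * bof 0 * (bof 1)⁻¹ * ((bof 0)⁻¹ * (bof 0)⁻¹) = 1 at h
  have h2 : (bof 0)⁻¹ * (bof 0)⁻¹ = (bof 0 * bof 0)⁻¹ := by rw [mul_inv_rev]
  rw [h2] at h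
  exact mul_inv_eq_one.1 h

/-- Homomorphisms out of `BG`. (`PresentedGroup.toGroup`.) -/
theorem exists_hom {G : Type} [Group G] (a t : G) (h : t * a * t⁻¹ = a * a) :
    ∃ f : BG →* G, f (bof 0) = a ∧ f (bof 1) = t := by
  have hr : ∀ r ∈ ({rel} : Set (FreeGroup (Fin 2))), FreeGroup.lift ![a, t] r = 1 := by
    intro r hr
    rw [Set.mem_singleton_iff] at hr
    rw [hr]
    unfold rel
    simp only [map_mul, map_inv, FreeGroup.lift_apply_of]
    simp only [Matrix.cons_val_zero, Matrix.cons_val_one]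
    rw [h]
    group
  refine ⟨PresentedGroup.toGroup hr, ?_, ?_⟩
  · unfold bof
    rw [PresentedGroup.toGroup.of]
    rfl
  · unfold bof
    rw [PresentedGroup.toGroup.of]
    rfl

theorem conj_pow_zpow {G : Type} [Group G] {a t : G} (h : t * a * t⁻¹ = a * a) (i : ℕ) (k : ℤ) :
    t ^ i * a ^ k * (t ^ i)⁻¹ = a ^ (2 ^ i * k) := by
  induction i generalizing k with
  | zero => simp
  | succ n ih =>
    have h1 : t * a ^ k * t⁻¹ = a ^ (2 * k) := by
      rw [← conj_zpow, h, ← pow_two, ← zpow_natCast, ← zpow_mul]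
      rfl
    calc t ^ (n + 1) * a ^ k * (t ^ (n + 1))⁻¹
        = t ^ n * (t * a ^ k * t⁻¹) * (t ^ n)⁻¹ := by rw [pow_succ]; group
      _ = a ^ (2 ^ n * (2 * k)) := by rw [h1, ih]
      _ = a ^ (2 ^ (n + 1) * k) := by congr 1; ring

theorem zpow_mul_inv {G : Type} [Group G] {a t : G} (h : t * a * t⁻¹ = a * a) (i : ℕ) (k : ℤ) :
    a ^ k * (t ^ i)⁻¹ = (t ^ i)⁻¹ * a ^ (2 ^ i * k) := by
  rw [← conj_pow_zpow h i k]
  group

/-- Normal form: every element is `t^(-i) a^k t^j` with `i, j : ℕ`, `k : ℤ`. (The set of these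
elements contains `1` and is closed under left multiplication by `a`, `a⁻¹`, `t`, `t⁻¹`:
`a t^(-i) = t^(-i) a^(2^i)`; `t t^(-i) a^k t^j`: if `i = 0` use `t a^k = a^(2k) t`.) -/
theorem normal_form (g : BG) :
    ∃ (i j : ℕ) (k : ℤ), g = (bof 1 ^ i)⁻¹ * bof 0 ^ k * bof 1 ^ j := by
  have hg : g ∈ Subgroup.closure (Set.range (PresentedGroup.of :
      Fin 2 → PresentedGroup ({rel} : Set (FreeGroup (Fin 2))))) := by
    rw [PresentedGroup.closure_range_of]
    exact Subgroup.mem_top _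
  have ha : ∀ (e : ℤ) (y : BG), (∃ (i j : ℕ) (k : ℤ), y = (bof 1 ^ i)⁻¹ * bof 0 ^ k * bof 1 ^ j) →
      ∃ (i j : ℕ) (k : ℤ), bof 0 ^ e * y = (bof 1 ^ i)⁻¹ * bof 0 ^ k * bof 1 ^ j := by
    rintro e y ⟨i, j, k, rfl⟩
    refine ⟨i, j, 2 ^ i * e + k, ?_⟩
    rw [← mul_assoc, ← mul_assoc, zpow_mul_inv bof_rel, zpow_add]
    simp only [mul_assoc]
  induction hg using Subgroup.closure_induction_left with
  | one => exact ⟨0, 0, 0, by simp⟩
  | mul_left x hx y hy ih =>
    obtain ⟨c, rfl⟩ := hx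
    fin_cases c
    · have := ha 1 y ih
      rwa [zpow_one] at this
    · obtain ⟨i, j, k, rfl⟩ := ih
      rcases i with _ | i
      · refine ⟨0, j + 1, 2 * k, ?_⟩
        have h1 : bof 1 * bof 0 ^ k = bof 0 ^ (2 * k) * bof 1 := by
          have := conj_pow_zpow bof_rel 1 k
          rw [pow_one, pow_one] at this
          rw [← this]
          group
        change bof 1 * _ = _
        simp only [pow_zero, inv_one, one_mul]
        rw [← mul_assoc, h1, pow_succ', mul_assoc]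
      · refine ⟨i, j, k, ?_⟩
        change bof 1 * _ = _
        rw [pow_succ]
        group
  | inv_mul_cancel x hx y hy ih =>
    obtain ⟨c, rfl⟩ := hx
    fin_cases c
    · have := ha (-1) y ih
      rwa [zpow_neg_one] at this
    · obtain ⟨i, j, k, rfl⟩ := ih
      refine ⟨i + 1, j, k, ?_⟩
      change (bof 1)⁻¹ * _ = _
      rw [pow_succ, mul_inv_rev]
      group

theorem mkT_npow (i : ℕ) : gt ^ i = mkT (i : ℤ) := by
  induction i with
  | zero => simp [mkT_zero]
  | succ n ih => rw [pow_succ, ih]; unfold gt; rw [mkT_mul]; push_cast; rfl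

theorem ga_npow_x (k : ℕ) : (ga ^ k).x = k ∧ (ga ^ k).n = 0 := by
  induction k with
  | zero => simp
  | succ n ih =>
    rw [pow_succ]
    simp only [mul_x, mul_n, ih.1, ih.2]
    simp [ga, mkA]

theorem ga_zpow_x (k : ℤ) : (ga ^ k).x = k ∧ (ga ^ k).n = 0 := by
  rcases k.eq_nat_or_neg with ⟨m, rfl | rfl⟩
  · rw [zpow_natCast]; simpa using ga_npow_x m
  · rw [zpow_neg, zpow_natCast]
    simp [(ga_npow_x m).1, (ga_npow_x m).2]

theorem nf_value (i j : ℕ) (k : ℤ) :
    ((gt ^ i)⁻¹ * ga ^ k * gt ^ j).x = (2 : ℚ) ^ (-(i : ℤ)) * k ∧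
      ((gt ^ i)⁻¹ * ga ^ k * gt ^ j).n = j - i := by
  rw [mkT_npow, mkT_npow]
  constructor
  · simp only [mul_x, mul_n, inv_x, inv_n, (ga_zpow_x k).1, (ga_zpow_x k).2]
    simp [mkT]
  · simp only [mul_n, inv_n, (ga_zpow_x k).2]
    simp [mkT]
    ring

/-- The isomorphism with `H`: `exists_hom ga gt`; injective because `t^(-i) a^k t^j` is mapped to
`(k / 2^i, j - i)`; surjective because every dyadic number is `k / 2^i`. -/
theorem exists_equiv : ∃ e : BG ≃* H, e (bof 0) = ga ∧ e (bof 1) = gt := by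
  have hrel : gt * ga * gt⁻¹ = ga * ga := by
    ext
    · simp [gt, ga, mkA, mkT]
      norm_num
    · simp [gt, ga, mkA, mkT]
  obtain ⟨f, hf0, hf1⟩ := exists_hom ga gt hrel
  have hf : ∀ (i j : ℕ) (k : ℤ), f ((bof 1 ^ i)⁻¹ * bof 0 ^ k * bof 1 ^ j) =
      (gt ^ i)⁻¹ * ga ^ k * gt ^ j := by
    intro i j k
    simp only [map_mul, map_inv, map_pow, map_zpow, hf0, hf1]
  have hbij : Function.Bijective f := by
    constructor
    · rw [injective_iff_map_eq_one]
      intro g hg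
      obtain ⟨i, j, k, rfl⟩ := normal_form g
      rw [hf] at hg
      have h1 := (nf_value i j k).1
      have h2 := (nf_value i j k).2
      rw [hg] at h1 h2
      rw [one_x] at h1
      rw [one_n] at h2
      have hk : k = 0 := by
        have h3 : (2 : ℚ) ^ (-(i : ℤ)) ≠ 0 := zpow_ne_zero _ (by norm_num)
        rcases mul_eq_zero.1 h1.symm with h4 | h4
        · exact absurd h4 h3
        · exact_mod_cast h4
      have hij : j = i := by omega
      rw [hk, hij]
      simp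
    · intro h
      obtain ⟨k, i, hk⟩ := h.dy
      refine ⟨(bof 1 ^ (i + h.n.natAbs))⁻¹ * bof 0 ^ (k * 2 ^ h.n.natAbs) *
        bof 1 ^ ((i + h.n.natAbs : ℕ) + h.n).toNat, ?_⟩
      rw [hf]
      ext
      · rw [(nf_value _ _ _).1]
        push_cast
        rw [← hk, zpow_neg]
        have h3 : (2 : ℚ) ^ i ≠ 0 := pow_ne_zero _ (by norm_num)
        have h4 : (2 : ℚ) ^ h.n.natAbs ≠ 0 := pow_ne_zero _ (by norm_num)
        have h5 : (2 : ℚ) ^ ((i : ℤ) + |h.n|) = 2 ^ i * 2 ^ h.n.natAbs := by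
          rw [zpow_add₀ (by norm_num), zpow_natCast, ← Int.natCast_natAbs, zpow_natCast]
        rw [h5]
        field_simp
      · rw [(nf_value _ _ _).2]
        rw [Int.toNat_of_nonneg (by omega)]
        ring
  exact ⟨MulEquiv.ofBijective f hbij, hf0, hf1⟩

end BS
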