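import Pool.Agent.W_24bb3a_h26.Rel

/-! Number theory, part A: congruences in `ℤ[1/2]`, `2^n - 1`, divisibility, the relation `RR`. -/

set_option autoImplicit false

namespace BS

theorem Cg.refl (M u : ℚ) : Cg M u u := ⟨0, Dy.zero, by ring⟩

theorem Cg.symm {M u v : ℚ} (h : Cg M u v) : Cg M v u := by
  obtain ⟨w, hw, h⟩ := h
  exact ⟨-w, hw.neg, by rw [h]; ring⟩

theorem Cg.trans {M u v w : ℚ} (h : Cg M u v) (h' : Cg M v w) : Cg M u w := by
  obtain ⟨a, ha, h⟩ := h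
  obtain ⟨b, hb, h'⟩ := h'
  exact ⟨a + b, ha.add hb, by rw [h, h']; ring⟩

theorem Cg.add {M u v u' v' : ℚ} (h : Cg M u v) (h' : Cg M u' v') : Cg M (u + u') (v + v') := by
  obtain ⟨a, ha, h⟩ := h
  obtain ⟨b, hb, h'⟩ := h'
  exact ⟨a + b, ha.add hb, by rw [h, h']; ring⟩

/-- Products; `v`, `u'` are dyadic. -/
theorem Cg.mul {M u v u' v' : ℚ} (hM : Dy M) (hv : Dy v) (hu' : Dy u') (h : Cg M u v)
    (h' : Cg M u' v') : Cg M (u * u') (v * v') := by
  obtain ⟨a, ha, h⟩ := h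
  obtain ⟨b, hb, h'⟩ := h'
  exact ⟨v * b + a * u', (hv.mul hb).add (ha.mul hu'), by linear_combination u' * h + v * h'⟩

/-- If `M = M' * c` with `c` dyadic, a congruence modulo `M` holds modulo `M'`. -/
theorem Cg.of_mul {M' c u v : ℚ} (hc : Dy c) (h : Cg (M' * c) u v) : Cg M' u v := by
  obtain ⟨w, hw, h⟩ := h
  exact ⟨c * w, hc.mul hw, by rw [h]; ring⟩

/-- For an odd natural number `M` and integers: congruence in `ℤ[1/2]` is congruence in `ℤ`.
(`u - v = M w`, `w 2^i = k`: `2^i (u - v) = M k`, `M` odd.) -/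
theorem Cg_int {M : ℕ} (hM : Odd M) (u v : ℤ) : Cg (M : ℚ) (u : ℚ) (v : ℚ) ↔ (M : ℤ) ∣ u - v := by
  constructor
  · rintro ⟨w, ⟨k, i, hk⟩, h⟩
    have h1 : ((u - v) * 2 ^ i : ℤ) = M * k := by
      have h2 : ((u : ℚ) - v) * 2 ^ i = M * k := by
        rw [← hk, h]
        ring
      exact_mod_cast h2
    have hc : IsCoprime (M : ℤ) (2 ^ i) := by
      have h2 : Nat.Coprime M (2 ^ i) := Nat.Coprime.pow_right i hM.coprime_two_right
      have h3 := Nat.isCoprime_iff_coprime.2 h2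
      simpa using h3
    exact hc.dvd_of_dvd_mul_right ⟨k, h1⟩
  · rintro ⟨c, hc⟩
    refine ⟨c, Dy.int c, ?_⟩
    have h1 : (u : ℚ) - v = M * c := by exact_mod_cast hc
    linear_combination h1

/-- Every dyadic number is congruent to a natural number modulo an odd `M`
(`2` is invertible modulo `M`). -/
theorem exists_nat_Cg {M : ℕ} (hM : Odd M) {x : ℚ} (hx : Dy x) : ∃ k : ℕ, Cg (M : ℚ) x (k : ℚ) := by
  obtain ⟨k, i, hk⟩ := hx
  have hc : IsCoprime (M : ℤ) (2 ^ i) := by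
    have h2 : Nat.Coprime M (2 ^ i) := Nat.Coprime.pow_right i hM.coprime_two_right
    have h3 := Nat.isCoprime_iff_coprime.2 h2
    simpa using h3
  obtain ⟨a, b, hab⟩ := hc
  have hM0 : (M : ℤ) ≠ 0 := by
    have := hM.pos
    omega
  have hz : 0 ≤ (b * k) % M := Int.emod_nonneg _ hM0
  obtain ⟨j, hj⟩ := Int.eq_ofNat_of_zero_le hz
  refine ⟨j, a * x + (((b * k) / (M : ℤ) : ℤ) : ℚ), ?_, ?_⟩
  · have hx' : Dy x := ⟨k, i, hk⟩
    exact ((Dy.int a).mul hx').add (Dy.int _)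
  · have h1 : (a : ℚ) * M + b * 2 ^ i = 1 := by exact_mod_cast hab
    have h2 : ((b * k : ℤ) : ℚ) = j + M * (((b * k) / (M : ℤ) : ℤ) : ℚ) := by
      have h3 := Int.emod_add_mul_ediv (b * k) M
      rw [hj] at h3
      have h4 : ((b * k : ℤ) : ℚ) = (((j : ℤ) + M * ((b * k) / (M : ℤ)) : ℤ) : ℚ) := by rw [h3]
      rw [h4]
      push_cast
      ring
    push_cast at h2
    linear_combination x * (-h1) + b * hk + h2

theorem MM_dy (n : ℤ) : Dy (MM n) := by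
  exact (Dy.zpow n).sub Dy.one

/-- `MM n` for a natural number `n`. -/
theorem MM_nat (n : ℕ) : MM (n : ℤ) = ((2 ^ n - 1 : ℕ) : ℚ) := by
  rw [MM, Nat.cast_sub Nat.one_le_two_pow, zpow_natCast]
  push_cast
  ring

/-- `2^n - 1` is odd for `0 < n`. -/
theorem odd_two_pow_sub_one {n : ℕ} (hn : 0 < n) : Odd (2 ^ n - 1 : ℕ) := by
  obtain ⟨m, rfl⟩ : ∃ m, n = m + 1 := ⟨n - 1, by omega⟩
  refine ⟨2 ^ m - 1, ?_⟩
  have := Nat.one_le_two_pow (n := m)
  rw [pow_succ]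
  omega

theorem MM_neg (n : ℤ) : MM (-n) = -(2 ^ (-n)) * MM n := by
  rw [MM, MM]
  have h : (2 : ℚ) ^ (-n) * 2 ^ n = 1 := by
    rw [← zpow_add₀ (by norm_num : (2 : ℚ) ≠ 0), neg_add_cancel, zpow_zero]
  linear_combination h

theorem MM_ne_zero {n : ℤ} (hn : n ≠ 0) : MM n ≠ 0 := by
  rw [MM, sub_ne_zero]
  intro h
  exact hn ((zpow_eq_one_iff_right₀ (by norm_num) (by norm_num)).1 h)

/-- `MM n` and `MM |n|` divide each other. -/
theorem MM_natAbs (n : ℤ) : ∃ c d, Dy c ∧ Dy d ∧ MM n = MM (n.natAbs : ℤ) * c ∧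
    MM (n.natAbs : ℤ) = MM n * d := by
  rcases le_total 0 n with h | h
  · refine ⟨1, 1, Dy.one, Dy.one, ?_, ?_⟩ <;> rw [Int.natAbs_of_nonneg h, mul_one]
  · have h1 : (n.natAbs : ℤ) = -n := by omega
    refine ⟨-(2 ^ n), -(2 ^ (-n)), (Dy.zpow n).neg, (Dy.zpow (-n)).neg, ?_, ?_⟩
    · rw [h1]
      have h2 := MM_neg (-n)
      rw [neg_neg] at h2
      rw [h2]
      ring
    · rw [h1, MM_neg n]
      ring

end BS
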