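import Pool.Agent.W_24bb3a_h26.NtA

/-! Number theory, part A2: divisibility, the relation `RR`. -/

set_option autoImplicit false

namespace BS

/-- `2^(k u) = 1 + u M + M^2 w` with `M = 2^k - 1`, `w` dyadic (for all integers `k`, `u`).
For `u ≥ 0` induction; for `-u`: `2^(-ku) = 1 - u M 2^(-ku) - M^2 w 2^(-ku)` and
`2^(-ku) = 1 + M w'`. -/
theorem two_zpow_mul (k u : ℤ) :
    ∃ w, Dy w ∧ (2 : ℚ) ^ (k * u) = 1 + u * MM k + MM k * (MM k * w) := by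
  have hpos : ∀ j : ℕ, ∃ w, Dy w ∧ (2 : ℚ) ^ (k * (j : ℤ)) = 1 + j * MM k + MM k * (MM k * w) := by
    intro j
    induction j with
    | zero => exact ⟨0, Dy.zero, by simp⟩
    | succ j ih =>
      obtain ⟨w, hw, h⟩ := ih
      refine ⟨j + w * 2 ^ k, (Dy.nat j).add (hw.mul (Dy.zpow k)), ?_⟩
      have h1 : (2 : ℚ) ^ (k * ((j + 1 : ℕ) : ℤ)) = 2 ^ (k * (j : ℤ)) * 2 ^ k := by
        rw [← zpow_add₀ (by norm_num : (2 : ℚ) ≠ 0)]
        congr 1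
        push_cast
        ring
      have h2 : (2 : ℚ) ^ k = 1 + MM k := by rw [MM]; ring
      rw [h1, h, h2]
      push_cast
      ring
  rcases le_total 0 u with hu | hu
  · obtain ⟨j, rfl⟩ := Int.eq_ofNat_of_zero_le hu
    obtain ⟨w, hw, h⟩ := hpos j
    exact ⟨w, hw, by rw [h]; push_cast; ring⟩
  · obtain ⟨j, hj⟩ := Int.eq_ofNat_of_zero_le (a := -u) (by omega)
    obtain ⟨w, hw, h⟩ := hpos j
    have hu' : u = -(j : ℤ) := by omega
    subst hu'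
    refine ⟨j * (j + MM k * w) * 2 ^ (k * -(j : ℤ)) - w * 2 ^ (k * -(j : ℤ)), ?_, ?_⟩
    · exact (((Dy.nat j).mul ((Dy.nat j).add ((MM_dy k).mul hw))).mul (Dy.zpow _)).sub
        (hw.mul (Dy.zpow _))
    · have h1 : (2 : ℚ) ^ (k * (j : ℤ)) * 2 ^ (k * -(j : ℤ)) = 1 := by
        rw [← zpow_add₀ (by norm_num : (2 : ℚ) ≠ 0)]
        have : k * (j : ℤ) + k * -(j : ℤ) = 0 := by ring
        rw [this, zpow_zero]
      rw [h] at h1
      push_cast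
      set B : ℚ := (2 : ℚ) ^ (k * -(j : ℤ)) with hB
      clear_value B
      linear_combination (1 - j * MM k) * h1

/-- `DvZ n m` is divisibility. (`←`: `two_zpow_mul`. `→`: by `MM_natAbs` and `Cg_int`
`2^|n| - 1 ∣ 2^|m| - 1` in `ℕ`; `n = 0` separately; `Nat.pow_sub_one_gcd_pow_sub_one`.) -/
theorem DvZ_iff (n m : ℤ) : DvZ n m ↔ n ∣ m := by
  constructor
  · rintro ⟨w, hw, h⟩
    by_cases hn : n = 0
    · subst hn
      have h1 : MM m = 0 := by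
        rw [h, MM]
        simp
      by_contra hm
      apply MM_ne_zero (n := m) _ h1
      rintro rfl
      exact hm (dvd_refl _)
    · obtain ⟨c, -, hc, -, h1, -⟩ := MM_natAbs n
      obtain ⟨-, d, -, hd, -, h2⟩ := MM_natAbs m
      have hpos : 0 < n.natAbs := Int.natAbs_pos.2 hn
      have h3 : Cg ((2 ^ n.natAbs - 1 : ℕ) : ℚ) (((2 ^ m.natAbs - 1 : ℕ) : ℤ) : ℚ)
          ((0 : ℤ) : ℚ) := by
        refine ⟨c * w * d, (hc.mul hw).mul hd, ?_⟩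
        rw [Int.cast_natCast, ← MM_nat, ← MM_nat, Int.cast_zero, h2, h, h1]
        ring
      rw [Cg_int (odd_two_pow_sub_one hpos), sub_zero] at h3
      have h4 : (2 ^ n.natAbs - 1) ∣ (2 ^ m.natAbs - 1) := by exact_mod_cast h3
      have h5 := Nat.pow_sub_one_gcd_pow_sub_one 2 n.natAbs m.natAbs
      rw [Nat.gcd_eq_left h4] at h5
      have h6 := Nat.one_le_two_pow (n := n.natAbs)
      have h7 := Nat.one_le_two_pow (n := Nat.gcd n.natAbs m.natAbs)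
      have h8 : 2 ^ n.natAbs = 2 ^ Nat.gcd n.natAbs m.natAbs := by omega
      have h9 := Nat.pow_right_injective le_rfl h8
      have h10 : n.natAbs ∣ m.natAbs := by
        rw [h9]
        exact Nat.gcd_dvd_right _ _
      exact Int.natAbs_dvd_natAbs.1 h10
  · rintro ⟨u, rfl⟩
    obtain ⟨w, hw, h⟩ := two_zpow_mul n u
    refine ⟨u + MM n * w, (Dy.int u).add ((MM_dy n).mul hw), ?_⟩
    rw [MM, h]
    ring

/-- For `k ≠ 0` and dyadic `X`. -/
theorem RR_iff {k m : ℤ} (hk : k ≠ 0) {X : ℚ} (hX : Dy X) :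
    RR k m X ↔ ∃ u : ℤ, m = k * u ∧ Cg (MM k) X (u : ℚ) := by
  have hk0 := MM_ne_zero hk
  constructor
  · rintro ⟨w, hw, h⟩
    have h1 : DvZ k m := ⟨X + MM k * w, hX.add ((MM_dy k).mul hw), by rw [h]; ring⟩
    obtain ⟨u, rfl⟩ := (DvZ_iff k m).1 h1
    obtain ⟨w', hw', h'⟩ := two_zpow_mul k u
    refine ⟨u, rfl, w' - w, hw'.sub hw, ?_⟩
    apply mul_left_cancel₀ hk0
    rw [MM, h'] at h
    linear_combination -h
  · rintro ⟨u, rfl, w1, hw1, h⟩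
    obtain ⟨w', hw', h'⟩ := two_zpow_mul k u
    refine ⟨w' - w1, hw'.sub hw1, ?_⟩
    rw [MM, h', h]
    ring

/-- `2^u ≡ 2^v` modulo `2^b - 1` (`0 < b`) only if `b ∣ u - v`. -/
theorem dvd_of_two_zpow_Cg {b : ℤ} (u v : ℤ) (h : Cg (MM b) ((2 : ℚ) ^ u) (2 ^ v)) :
    b ∣ u - v := by
  rw [← DvZ_iff]
  obtain ⟨w, hw, h⟩ := h
  refine ⟨w * 2 ^ (-v), hw.mul (Dy.zpow _), ?_⟩
  have h1 : (2 : ℚ) ^ v * 2 ^ (-v) = 1 := by
    rw [← zpow_add₀ (by norm_num : (2 : ℚ) ≠ 0), add_neg_cancel, zpow_zero]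
  have h2 : (2 : ℚ) ^ (u - v) = 2 ^ u * 2 ^ (-v) := by
    rw [← zpow_add₀ (by norm_num : (2 : ℚ) ≠ 0), sub_eq_add_neg]
  have h3 : MM (u - v) = 2 ^ (u - v) - 1 := rfl
  rw [h3, h2]
  linear_combination 2 ^ (-v) * h + h1

end BS
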