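import Pool.Agent.W_24bb3a_h26.NtB

/-! Number theory, part C: powers of 8 (step (3) of row 318). -/

set_option autoImplicit false

namespace BS

/-- A natural number `≡ 3 (mod 4)` has a prime factor `≡ 3 (mod 4)`. (Strong induction.) -/
theorem exists_prime_three_mod_four {N : ℕ} (h : N % 4 = 3) :
    ∃ p, p.Prime ∧ p % 4 = 3 ∧ p ∣ N := by
  induction N using Nat.strong_induction_on with
  | _ N ih =>
    have h1 : N ≠ 1 := by omega
    have hp := Nat.minFac_prime h1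
    obtain ⟨q, hq⟩ := Nat.minFac_dvd N
    by_cases h3 : N.minFac % 4 = 3
    · exact ⟨N.minFac, hp, h3, Nat.minFac_dvd N⟩
    · have h2 : N.minFac % 4 = 1 := by
        have h4 : N.minFac % 2 = 1 := by
          rcases Nat.mod_two_eq_zero_or_one N.minFac with h5 | h5
          · exfalso
            have h6 : 2 ∣ N := (Nat.dvd_of_mod_eq_zero h5).trans (Nat.minFac_dvd N)
            omega
          · exact h5
        omega
      have h4 : q % 4 = 3 := by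
        have h5 : N % 4 = (N.minFac % 4) * (q % 4) % 4 := by
          conv_lhs => rw [hq, Nat.mul_mod]
        rw [h2, one_mul, Nat.mod_mod] at h5
        omega
      have h5 : q < N := by
        have h6 := hp.two_le
        have h7 : 0 < q := by omega
        calc q < N.minFac * q := by nlinarith
          _ = N := hq.symm
      obtain ⟨p, hp1, hp2, hp3⟩ := ih q h5 h4
      exact ⟨p, hp1, hp2, hp3.trans ⟨N.minFac, by rw [mul_comm]; exact hq⟩⟩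

/-- For a prime `p ≡ 3 (mod 4)`, `p ∣ a^2 + b^2` implies `p ∣ b`
(`ZMod.mod_four_ne_three_of_sq_eq_neg_sq'`). -/
theorem prime_dvd_of_dvd_sq_add_sq {p : ℕ} (hp : p.Prime) (h3 : p % 4 = 3) {a b : ℤ}
    (h : (p : ℤ) ∣ a * a + b * b) : (p : ℤ) ∣ b := by
  have hf : Fact p.Prime := ⟨hp⟩
  by_contra hb
  have h1 : ((b : ℤ) : ZMod p) ≠ 0 := by
    rwa [Ne, ZMod.intCast_zmod_eq_zero_iff_dvd]
  have h2 : ((a : ℤ) : ZMod p) ^ 2 = -((b : ℤ) : ZMod p) ^ 2 := by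
    have h4 := (ZMod.intCast_zmod_eq_zero_iff_dvd (a * a + b * b) p).2 h
    push_cast at h4
    linear_combination h4
  exact ZMod.mod_four_ne_three_of_sq_eq_neg_sq' h1 h2 h3

/-- If `2^n - 1` divides `x^2 + G^2` in the ring of dyadic numbers (`n ≠ 0`, `x` dyadic, `G` an
integer), every prime `p ≡ 3 (mod 4)` dividing `2^|n| - 1` divides `G`. (Multiply by a power of 2:
`x = k / 2^i`: `p ∣ k^2 + (2^i G)^2`; `p` odd.) -/
theorem prime_dvd_of_MM_dvd {n : ℤ} (hn : n ≠ 0) {x w : ℚ} (hx : Dy x) (hw : Dy w) {G : ℤ}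
    (h : x * x + (G : ℚ) * G = MM n * w) {p : ℕ} (hp : p.Prime) (h3 : p % 4 = 3)
    (hpn : p ∣ 2 ^ n.natAbs - 1) : (p : ℤ) ∣ G := by
  obtain ⟨c, -, hc, -, h1, -⟩ := MM_natAbs n
  rw [MM_nat] at h1
  obtain ⟨t, ht⟩ := hpn
  obtain ⟨k, i, hk⟩ := hx
  obtain ⟨l, j, hl⟩ := hc.mul hw
  have h2 : (((k * k + (2 ^ i * G) * (2 ^ i * G)) * 2 ^ j : ℤ) : ℚ) =
      ((p * (t * l * 2 ^ (2 * i)) : ℤ) : ℚ) := by
    rw [ht] at h1
    push_cast at h1 ⊢
    rw [← hk, ← hl]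
    rw [h1] at h
    have h3 : (2 : ℚ) ^ (2 * i) = 2 ^ i * 2 ^ i := by
      rw [← pow_add]
      congr 1
      ring
    rw [h3]
    linear_combination (2 ^ i * 2 ^ i * 2 ^ j : ℚ) * h
  have h5 : (p : ℤ) ∣ (k * k + (2 ^ i * G) * (2 ^ i * G)) * 2 ^ j := by
    refine ⟨t * l * 2 ^ (2 * i), ?_⟩
    exact_mod_cast h2
  have hpp : Prime (p : ℤ) := Nat.prime_iff_prime_int.1 hp
  have h4 : ∀ m : ℕ, ¬ (p : ℤ) ∣ 2 ^ m := by
    intro m h5
    have h6 : (p : ℤ) ∣ 2 := hpp.dvd_of_dvd_pow h5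
    have h7 : p ∣ 2 := by exact_mod_cast h6
    have h8 := (Nat.prime_dvd_prime_iff_eq hp Nat.prime_two).1 h7
    omega
  have h6 := (hpp.dvd_or_dvd h5).resolve_right (h4 j)
  have h7 := prime_dvd_of_dvd_sq_add_sq hp h3 h6
  exact (hpp.dvd_or_dvd h7).resolve_left (h4 i)

/-- For odd `d ≥ 3` there is a prime `p ≡ 3 (mod 4)`, `p ≠ 3` dividing `2^d - 1`. -/
theorem exists_prime_dvd_odd {d : ℕ} (hd : Odd d) (h1 : 1 < d) :
    ∃ p, p.Prime ∧ p % 4 = 3 ∧ p ≠ 3 ∧ p ∣ 2 ^ d - 1 := by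
  have h4 : (2 ^ d - 1) % 4 = 3 := by
    obtain ⟨m, rfl⟩ : ∃ m, d = m + 2 := ⟨d - 2, by omega⟩
    have := Nat.one_le_two_pow (n := m)
    rw [pow_add]
    omega
  obtain ⟨p, hp, hp3, hpd⟩ := exists_prime_three_mod_four h4
  refine ⟨p, hp, hp3, ?_, hpd⟩
  rintro rfl
  obtain ⟨m, rfl⟩ := hd
  have h5 : 2 ^ (2 * m + 1) % 3 = 2 := by
    rw [pow_succ, pow_mul, Nat.mul_mod, Nat.pow_mod]
    norm_num
  have h6 := Nat.one_le_two_pow (n := 2 * m + 1)
  generalize 2 ^ (2 * m + 1) = A at h5 h6 hpd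
  omega

theorem NtC_crt {a b x y : ℤ} (hab : IsCoprime a b) (ha : a ∣ x * x + 9) (hb : b ∣ y * y + 9) :
    ∃ z : ℤ, a * b ∣ z * z + 9 := by
  have hab' := hab
  obtain ⟨v, u, h⟩ := hab
  refine ⟨x * (u * b) + y * (v * a), hab'.mul_dvd ?_ ?_⟩
  · obtain ⟨c, hc⟩ := ha
    have h1 : x * (u * b) + y * (v * a) = x + a * (v * (y - x)) := by
      linear_combination x * h
    rw [h1]
    exact ⟨c + 2 * x * (v * (y - x)) + a * (v * (y - x)) ^ 2, by linear_combination hc⟩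
  · obtain ⟨c, hc⟩ := hb
    have h1 : x * (u * b) + y * (v * a) = y + b * (u * (x - y)) := by
      linear_combination y * h
    rw [h1]
    exact ⟨c + 2 * y * (u * (x - y)) + b * (u * (x - y)) ^ 2, by linear_combination hc⟩

/-- `2^(2^j) - 1` divides `x^2 + 9` for some integer `x`. Induction on `j` (`j = 0`: modulus 1;
`j = 1`: modulus 3, `x = 0`; step `j → j+1`, `j ≥ 1`:
`2^(2^(j+1)) - 1 = (2^(2^j) - 1) (2^(2^j) + 1)` coprime, CRT with `x ≡ 3 * 2^(2^(j-1))` modulo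
`2^(2^j) + 1`). -/
theorem exists_sq_add_nine (j : ℕ) : ∃ x : ℤ, ((2 ^ (2 ^ j) - 1 : ℕ) : ℤ) ∣ x * x + 9 := by
  have hcast : ∀ m : ℕ, ((2 ^ m - 1 : ℕ) : ℤ) = 2 ^ m - 1 := by
    intro m
    rw [Nat.cast_sub Nat.one_le_two_pow]
    push_cast
    ring
  rcases Nat.eq_zero_or_pos j with rfl | hj
  · exact ⟨0, by norm_num⟩
  · obtain ⟨i, rfl⟩ : ∃ i, j = i + 1 := ⟨j - 1, by omega⟩
    clear hj
    induction i with
    | zero => exact ⟨0, by norm_num⟩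
    | succ i ih =>
      obtain ⟨x, hx⟩ := ih
      rw [hcast] at hx ⊢
      have h1 : (2 : ℤ) ^ 2 ^ (i + 1 + 1) - 1 = (2 ^ 2 ^ (i + 1) - 1) * (2 ^ 2 ^ (i + 1) + 1) := by
        rw [pow_succ 2 (i + 1), pow_mul]
        ring
      rw [h1]
      refine NtC_crt (x := x) (y := 3 * 2 ^ 2 ^ i) ?_ hx ?_
      · refine ⟨2 ^ (2 ^ (i + 1) - 1), 1 - 2 ^ (2 ^ (i + 1) - 1), ?_⟩
        have h2 : (2 : ℤ) ^ 2 ^ (i + 1) = 2 * 2 ^ (2 ^ (i + 1) - 1) := by
          rw [← pow_succ']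
          congr 1
          have := Nat.one_le_two_pow (n := i + 1)
          omega
        rw [h2]
        ring
      · have h2 : (2 : ℤ) ^ 2 ^ (i + 1) = 2 ^ 2 ^ i * 2 ^ 2 ^ i := by
          rw [pow_succ 2 i, pow_mul, sq]
        rw [h2]
        exact ⟨9, by ring⟩

end BS
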