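import Pool.Agent.W_24bb3a_h26.NtC

/-! Number theory, part C2: the relation `E8`. -/

set_option autoImplicit false

namespace BS

/-- Soundness of `E8`. `n ≠ 0` as `n ≡ 1 (mod 7)`. `Sq_sound` gives `x^2 + 3^2 = MM n * w`. If an odd
`d > 1` divides `|n|`, take `p` from `exists_prime_dvd_odd`; `p ∣ 3`, contradiction. So
`|n| = 2^j`; `n ≡ 1 (mod 7)` gives `n > 0` and `3 ∣ j`. -/
theorem E8_sound {n : ℤ} (h : E8 n) : ∃ i : ℕ, n = 8 ^ i := by
  obtain ⟨⟨c, hc⟩, x, hx, y, hy, hsq, w, hw, h⟩ := h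
  have hn : n ≠ 0 := by omega
  obtain ⟨w0, hw0, h0⟩ := Sq_sound hn hx hy hsq
  have h1 : x * x + ((3 : ℤ) : ℚ) * ((3 : ℤ) : ℚ) = MM n * (w - w0) := by
    push_cast
    linear_combination h - h0
  have hpow : ∃ j, n.natAbs = 2 ^ j := by
    rcases Nat.eq_two_pow_or_exists_odd_prime_and_dvd n.natAbs with h2 | ⟨d, hd, hdn, hodd⟩
    · exact h2
    · exfalso
      obtain ⟨p, hp, hp3, hpne, hpd⟩ := exists_prime_dvd_odd hodd hd.one_lt
      have h3 : p ∣ 2 ^ n.natAbs - 1 := hpd.trans (Nat.pow_sub_one_dvd_pow_sub_one 2 hdn)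
      have h4 := prime_dvd_of_MM_dvd hn hx (hw.sub hw0) h1 hp hp3 h3
      have h5 : p ∣ 3 := by exact_mod_cast h4
      exact hpne ((Nat.prime_dvd_prime_iff_eq hp Nat.prime_three).1 h5)
  obtain ⟨j, hj⟩ := hpow
  obtain ⟨i, r, hr, hjr⟩ : ∃ i r, r < 3 ∧ j = 3 * i + r :=
    ⟨j / 3, j % 3, Nat.mod_lt _ (by norm_num), (Nat.div_add_mod j 3).symm⟩
  have h8 : (2 : ℕ) ^ j % 7 = 2 ^ r % 7 := by
    rw [hjr, pow_add, pow_mul, Nat.mul_mod, Nat.pow_mod]
    norm_num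
  refine ⟨i, ?_⟩
  have h9 : (n.natAbs : ℤ) % 7 = ((2 ^ r % 7 : ℕ) : ℤ) := by
    rw [hj, ← h8]
    push_cast
    rfl
  interval_cases r
  · have h10 : 0 ≤ n := by
      norm_num at h9
      omega
    have h11 : (n.natAbs : ℤ) = n := Int.natAbs_of_nonneg h10
    rw [← h11, hj, hjr, add_zero, pow_mul]
    push_cast
    norm_num
  · exfalso
    norm_num at h9
    omega
  · exfalso
    norm_num at h9
    omega

/-- Completeness of `E8`: `exists_sq_add_nine` with `j = 3 i`, `y = x^2`, `Sq_complete`. -/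
theorem E8_complete (i : ℕ) : E8 (8 ^ i) := by
  obtain ⟨x, c, hc⟩ := exists_sq_add_nine (3 * i)
  have h1 : ((2 ^ (2 ^ (3 * i)) - 1 : ℕ) : ℚ) = MM (8 ^ i) := by
    rw [← MM_nat]
    congr 1
    push_cast
    rw [pow_mul]
    norm_num
  refine ⟨?_, x, Dy.int x, x * x, (Dy.int x).mul (Dy.int x), Sq_complete (by positivity)
    (Dy.int x) ((Dy.int x).mul (Dy.int x)) (Cg.refl _ _), c, Dy.int c, ?_⟩
  · have h2 : (7 : ℤ) ∣ 8 ^ i - 1 := by
      have h3 := sub_dvd_pow_sub_pow (8 : ℤ) 1 i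
      rw [one_pow] at h3
      norm_num at h3
      exact h3
    obtain ⟨c, hc⟩ := h2
    exact ⟨c, by linear_combination hc⟩
  · rw [← h1]
    exact_mod_cast hc

end BS
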