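import Pool.Agent.W_24bb3a_h26.NtC2

/-! Number theory, part D: the relation `C1` (step (4)) and products of powers of 8 (step (5)). -/

set_option autoImplicit false

namespace BS

/-- For an odd prime `p` there is a prime `l ≡ 3 (mod 4)` with `l ∣ 2^p - 1`; and
`l ∣ 2^g - 1` implies `p ∣ g` (the order of `2` modulo `l` is `p`). -/
theorem exists_prime_order {p : ℕ} (hp : p.Prime) (h2 : p ≠ 2) :
    ∃ l, l.Prime ∧ l % 4 = 3 ∧ l ∣ 2 ^ p - 1 ∧ ∀ g : ℕ, l ∣ 2 ^ g - 1 → p ∣ g := by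
  have hp2 := hp.two_le
  have hmod : (2 ^ p - 1) % 4 = 3 := by
    obtain ⟨k, rfl⟩ := Nat.exists_eq_add_of_le hp2
    have : 2 ^ (2 + k) = 4 * 2 ^ k := by ring
    have h1 : 1 ≤ 2 ^ k := Nat.one_le_two_pow
    omega
  obtain ⟨l, hl, hl3, hld⟩ := exists_prime_three_mod_four hmod
  refine ⟨l, hl, hl3, hld, fun g hg => ?_⟩
  by_contra hpg
  have hcop : Nat.gcd p g = 1 := (Nat.Prime.coprime_iff_not_dvd hp).2 hpg
  have h := Nat.dvd_gcd hld hg
  rw [Nat.pow_sub_one_gcd_pow_sub_one, hcop] at h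
  have : l ∣ 1 := by simpa using h
  exact hl.one_lt.ne' (Nat.dvd_one.1 this)

/-- Soundness of `C1`: every odd prime divisor of `n` divides `g`. (`Sq_sound`; `MM g` may be
replaced by the integer `2^|g| - 1` up to a power of 2 and sign: multiply
`x^2 + (MM g)^2 = MM n * w` by `4^|g|`, use `prime_dvd_of_MM_dvd`.) -/
theorem C1_sound {n g : ℤ} (hn : n ≠ 0) (h : C1 n g) {p : ℕ} (hp : p.Prime) (h2 : p ≠ 2)
    (hpn : (p : ℤ) ∣ n) : (p : ℤ) ∣ g := by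
  obtain ⟨x, hx, y, hy, hS, w, hw, hyw⟩ := h
  obtain ⟨w', hw', hy'⟩ := Sq_sound hn hx hy hS
  obtain ⟨l, hl, hl3, hld, hlg⟩ := exists_prime_order hp h2
  have hpn' : p ∣ n.natAbs := Int.natCast_dvd.1 hpn
  have hln : l ∣ 2 ^ n.natAbs - 1 := hld.trans (Nat.pow_sub_one_dvd_pow_sub_one 2 hpn')
  have hl2 : l ≠ 2 := by rintro rfl; norm_num at hl3
  rcases g.eq_nat_or_neg with ⟨k, rfl | rfl⟩
  · -- g = k
    have key : x * x + (((2 ^ k - 1 : ℤ)) : ℚ) * (((2 ^ k - 1 : ℤ)) : ℚ) = MM n * (w - w') := by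
      have e : MM (k : ℤ) = (((2 ^ k - 1 : ℤ)) : ℚ) := by
        simp [MM]
      rw [← e]
      linear_combination hyw - hy'
    have h3 := prime_dvd_of_MM_dvd hn hx (hw.sub hw') key hl hl3 hln
    have h4 : l ∣ 2 ^ k - 1 := by
      have : ((2 ^ k - 1 : ℕ) : ℤ) = 2 ^ k - 1 := by
        rw [Nat.cast_sub Nat.one_le_two_pow]; simp
      exact_mod_cast (this ▸ h3 : (l : ℤ) ∣ ((2 ^ k - 1 : ℕ) : ℤ))
    exact_mod_cast hlg k h4
  · -- g = -k
    have e0 : (2 : ℚ) ^ k ≠ 0 := pow_ne_zero _ (by norm_num)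
    have e : (2 : ℚ) ^ k * MM (-(k : ℤ)) = (((1 - 2 ^ k : ℤ)) : ℚ) := by
      simp only [MM, zpow_neg, zpow_natCast]
      push_cast
      field_simp
    have key : (2 ^ k * x) * (2 ^ k * x) + (((1 - 2 ^ k : ℤ)) : ℚ) * (((1 - 2 ^ k : ℤ)) : ℚ)
        = MM n * (2 ^ k * (2 ^ k * (w - w'))) := by
      rw [← e]
      linear_combination 2 ^ k * 2 ^ k * (hyw - hy')
    have d2 : Dy ((2 : ℚ) ^ k) := Dy.two.pow k
    have h3 := prime_dvd_of_MM_dvd hn (d2.mul hx) (d2.mul (d2.mul (hw.sub hw'))) key hl hl3 hln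
    have h4 : l ∣ 2 ^ k - 1 := by
      have : ((2 ^ k - 1 : ℕ) : ℤ) = -(1 - 2 ^ k) := by
        rw [Nat.cast_sub Nat.one_le_two_pow]; simp
      have h5 : (l : ℤ) ∣ ((2 ^ k - 1 : ℕ) : ℤ) := by
        rw [this]; exact (dvd_neg).2 h3
      exact_mod_cast h5
    exact (dvd_neg).2 (by exact_mod_cast hlg k h4)

/-- For `o ≥ 1`: `2^(2^s o) - 1` divides `x^2 + (2^(2 o) - 1)^2` for some integer `x`. `s = 0`:
`x = 0`. `s = 1`: `x = 0`. Step `s → s+1` (`s ≥ 1`): `2^(2^(s+1) o) - 1 = (2^(2^s o) - 1)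
(2^(2^s o) + 1)`, coprime (both odd), CRT with `x ≡ 2^(2^(s-1) o) (2^(2o) - 1)` modulo
`2^(2^s o) + 1`. -/
theorem exists_sq_add_sq (s : ℕ) {o : ℕ} (ho : 0 < o) :
    ∃ x : ℤ, ((2 ^ (2 ^ s * o) - 1 : ℕ) : ℤ) ∣ x * x + ((2 ^ (2 * o) - 1 : ℕ) : ℤ) ^ 2 := by
  have hc : ∀ m : ℕ, ((2 ^ m - 1 : ℕ) : ℤ) = 2 ^ m - 1 := fun m => by
    rw [Nat.cast_sub Nat.one_le_two_pow]; simp
  rcases s with _ | s
  · refine ⟨0, ?_⟩
    rw [hc, hc]
    have : (2 : ℤ) ^ (2 * o) - 1 = (2 ^ (2 ^ 0 * o) - 1) * (2 ^ o + 1) := by ring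
    rw [this]
    exact ⟨(2 ^ (2 ^ 0 * o) - 1) * (2 ^ o + 1) ^ 2, by ring⟩
  · induction s with
    | zero =>
      refine ⟨0, ?_⟩
      rw [hc, hc]
      exact ⟨2 ^ (2 * o) - 1, by ring⟩
    | succ s ih =>
      obtain ⟨x, hx⟩ := ih
      rw [hc] at hx ⊢
      set G : ℤ := ((2 ^ (2 * o) - 1 : ℕ) : ℤ) with hG
      set N : ℤ := 2 ^ (2 ^ (s + 1) * o) with hN
      set R : ℤ := 2 ^ (2 ^ s * o) with hR
      have hNR : N = R * R := by
        rw [hN, hR, ← pow_add]; congr 1; ring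
      have hN2 : (2 : ℤ) ^ (2 ^ (s + 1 + 1) * o) = N * N := by
        rw [hN, ← pow_add]; congr 1; ring
      rw [hN2]
      -- Bezout : N = 2 * h
      obtain ⟨h, hh⟩ : ∃ h : ℤ, N = 2 * h := by
        have h0 : 0 < 2 ^ (s + 1) * o := by positivity
        obtain ⟨k, hk⟩ := Nat.exists_eq_succ_of_ne_zero h0.ne'
        exact ⟨2 ^ k, by rw [hN, hk, pow_succ]; ring⟩
      -- (N+1) * h - ... : h (N - 1) ... find u v with u (N-1) + v (N+1) = 1
      -- (N + 1) * (1 - h) + (N - 1) * h = 1 : N + 1 - hN - h + hN - h = N + 1 - 2h = 1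
      have hb : (N + 1) * (1 - h) + (N - 1) * h = 1 := by linear_combination hh
      obtain ⟨c, hc'⟩ := hx
      -- z = x * (N+1) (1-h) + R G (N-1) h
      refine ⟨x * ((N + 1) * (1 - h)) + R * G * ((N - 1) * h), ?_⟩
      have hcop : IsCoprime (N - 1) (N + 1) := ⟨h, 1 - h, by linear_combination hb⟩
      have hm : N * N - 1 = (N - 1) * (N + 1) := by ring
      rw [hm]
      have hz1 : x * ((N + 1) * (1 - h)) + R * G * ((N - 1) * h) = x + (N - 1) * (h * (R * G - x)) := by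
        linear_combination x * hb
      have hz2 : x * ((N + 1) * (1 - h)) + R * G * ((N - 1) * h)
          = R * G + (N + 1) * ((1 - h) * (x - R * G)) := by
        linear_combination R * G * hb
      refine hcop.mul_dvd ?_ ?_
      · rw [hz1]
        refine ⟨c + 2 * x * (h * (R * G - x)) + (N - 1) * (h * (R * G - x)) ^ 2, ?_⟩
        linear_combination hc'
      · rw [hz2]
        refine ⟨G ^ 2 + 2 * (R * G) * ((1 - h) * (x - R * G)) + (N + 1) * ((1 - h) * (x - R * G)) ^ 2, ?_⟩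
        have : R * R = N := hNR.symm
        linear_combination G ^ 2 * this

theorem C1_complete (s : ℕ) {o : ℕ} (ho : 0 < o) : C1 (2 ^ s * o) (2 * o) := by
  obtain ⟨x, c, hx⟩ := exists_sq_add_sq s ho
  have h0 : (0 : ℤ) < 2 ^ s * o := by positivity
  have hd : Dy (x : ℚ) := Dy.int x
  refine ⟨x, hd, (x : ℚ) * x, hd.mul hd, Sq_complete h0 hd (hd.mul hd) (Cg.refl _ _), c, Dy.int c, ?_⟩
  have e1 : MM ((2 : ℤ) ^ s * o) = ((2 ^ (2 ^ s * o) - 1 : ℕ) : ℚ) := by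
    rw [← MM_nat]; push_cast; rfl
  have e2 : MM (2 * (o : ℤ)) = ((2 ^ (2 * o) - 1 : ℕ) : ℚ) := by
    rw [← MM_nat]; push_cast; rfl
  rw [e1, e2]
  have := congrArg (fun z : ℤ => (z : ℚ)) hx
  simp only [Int.cast_add, Int.cast_mul, Int.cast_pow, Int.cast_natCast] at this
  linear_combination this

end BS
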