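import Pool.Agent.W_24bb3a_h26.NtE

/-! Number theory, part F: multiplication (steps (8), (9)). -/

set_option autoImplicit false

namespace BS

/-- Two natural numbers less than `2^k - 1` and congruent modulo `2^k - 1` in the dyadic ring are
equal (`0 < k`). -/
theorem eq_of_Cg_small {k : ℕ} (hk : 0 < k) {u v : ℤ} (hu : 0 ≤ u) (hv : 0 ≤ v)
    (hu' : u < 2 ^ k - 1) (hv' : v < 2 ^ k - 1) (h : Cg (MM k) (u : ℚ) (v : ℚ)) : u = v := by
  rw [MM_nat k, Cg_int (odd_two_pow_sub_one hk)] at h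
  have h1 : ((2 ^ k - 1 : ℕ) : ℤ) = 2 ^ k - 1 := by
    have : 1 ≤ 2 ^ k := Nat.one_le_two_pow
    push_cast [Nat.cast_sub this]
    ring
  rw [h1] at h
  have h2 : u - v = 0 := Int.eq_zero_of_abs_lt_dvd h (by rw [abs_lt]; constructor <;> linarith)
  linarith

/-- Soundness of `PR`. `T = 2^k`; `m = k u`, `m' = (k+1) u'`, `N = Kc U` (`RR_iff`),
`0 ≤ u, u', U ≤ T/4 < 2^k - 1`; `u ≡ X ≡ U` modulo `MM k` (as `MM k ∣ MM Kc`), `u' ≡ U` modulo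
`MM (k+1)`. So `u = U = u'`, `x = (k+1) u - k u = u`. -/
theorem PR_sound {k x m : ℤ} (h : PR k x m) : 0 < k ∧ m = k * x := by
  obtain ⟨hk1, ⟨c, hc⟩, T, hT, m', Kc, N, ⟨X, hX, hR1, hR2, hR3⟩, hd1, hd2, hK, hm, hm', hN,
    hTm, hTm', hTN, hx⟩ := h
  rw [NN_iff] at hk1 hK hm hm' hN hTm hTm' hTN
  have hk : 0 < k := by linarith
  have hK' : 0 < Kc := by linarith
  have h3 : (3 : ℤ) ∣ k := ⟨c, hc⟩
  rw [Ex_iff hk.le h3] at hT
  obtain ⟨u, hu1, hu2⟩ := (RR_iff hk.ne' hX).1 hR1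
  obtain ⟨u', hu1', hu2'⟩ := (RR_iff (by omega : k + 1 ≠ 0) hX).1 hR2
  obtain ⟨U, hU1, hU2⟩ := (RR_iff hK'.ne' hX).1 hR3
  -- nonnegativity
  have hu0 : 0 ≤ u := by
    by_contra hcon
    push Not at hcon
    have : k * u < 0 := mul_neg_of_pos_of_neg hk hcon
    linarith
  have hu0' : 0 ≤ u' := by
    by_contra hcon
    push Not at hcon
    have : (k + 1) * u' < 0 := mul_neg_of_pos_of_neg (by linarith) hcon
    linarith
  have hU0 : 0 ≤ U := by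
    by_contra hcon
    push Not at hcon
    have : Kc * U < 0 := mul_neg_of_pos_of_neg hK' hcon
    linarith
  -- upper bounds
  have hum : u ≤ m := by rw [hu1]; nlinarith
  have hum' : u' ≤ m' := by rw [hu1']; nlinarith
  have hUN : U ≤ N := by rw [hU1]; nlinarith
  obtain ⟨kn, rfl⟩ := Int.eq_ofNat_of_zero_le hk.le
  have hkn : 0 < kn := by exact_mod_cast hk
  have hkn3 : 3 ≤ kn := by omega
  rw [Int.toNat_natCast] at hT
  have hT8 : (8 : ℤ) ≤ 2 ^ kn := by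
    calc (8 : ℤ) = 2 ^ 3 := by norm_num
      _ ≤ 2 ^ kn := pow_le_pow_right₀ (by norm_num) hkn3
  have e1 : Cg (MM kn) (u : ℚ) (U : ℚ) := by
    obtain ⟨w, hw, hw'⟩ := hd1
    rw [hw'] at hU2
    exact hu2.symm.trans (Cg.of_mul hw hU2)
  have e2 : Cg (MM ((kn + 1 : ℕ) : ℤ)) (u' : ℚ) (U : ℚ) := by
    obtain ⟨w, hw, hw'⟩ := hd2
    rw [hw'] at hU2
    push_cast
    exact hu2'.symm.trans (Cg.of_mul hw hU2)
  have f1 : u = U := eq_of_Cg_small hkn hu0 hU0 (by linarith) (by linarith) e1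
  have f2 : u' = U := by
    refine eq_of_Cg_small (Nat.succ_pos kn) hu0' hU0 ?_ ?_ e2
    · rw [pow_succ]; linarith
    · rw [pow_succ]; linarith
  refine ⟨hk, ?_⟩
  rw [hx, hu1', hu1, f1, f2]
  ring

/-- Completeness of `PR`: `T = 2^k`, `m' = (k+1) x`, `Kc = k (k+1)`, `N = Kc x`, `X = x`. -/
theorem PR_complete {k x : ℤ} (hk : 0 < k) (h3 : (3 : ℤ) ∣ k) (hx : 0 ≤ x)
    (hb : 4 * (k * (k + 1) * x) ≤ 2 ^ k.toNat) : PR k x (k * x) := by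
  have hkk : 0 < k * (k + 1) := by positivity
  have h0 : 0 ≤ k * x := by positivity
  have h0' : 0 ≤ (k + 1) * x := by positivity
  have h0'' : 0 ≤ k * (k + 1) * x := by positivity
  have hX : Dy ((x : ℤ) : ℚ) := Dy.int x
  refine ⟨(NN_iff _).2 (by linarith), ?_, 2 ^ k.toNat, (Ex_iff hk.le h3).2 rfl, (k + 1) * x,
    k * (k + 1), k * (k + 1) * x, ⟨(x : ℚ), hX, ?_, ?_, ?_⟩, ?_, ?_, ?_, ?_, ?_, ?_, ?_, ?_, ?_, ?_⟩
  · obtain ⟨c, hc⟩ := h3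
    exact ⟨c, hc⟩
  · exact (RR_iff hk.ne' hX).2 ⟨x, rfl, Cg.refl _ _⟩
  · exact (RR_iff (by omega) hX).2 ⟨x, rfl, Cg.refl _ _⟩
  · exact (RR_iff hkk.ne' hX).2 ⟨x, rfl, Cg.refl _ _⟩
  · exact (DvZ_iff _ _).2 ⟨k + 1, rfl⟩
  · exact (DvZ_iff _ _).2 ⟨k, by ring⟩
  · exact (NN_iff _).2 (by linarith)
  · exact (NN_iff _).2 h0
  · exact (NN_iff _).2 h0'
  · exact (NN_iff _).2 h0''
  · refine (NN_iff _).2 ?_
    nlinarith [mul_nonneg h0 hk.le]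
  · refine (NN_iff _).2 ?_
    nlinarith [mul_nonneg h0' (by linarith : 0 ≤ k - 1)]
  · exact (NN_iff _).2 (by linarith)
  · ring

end BS
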