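import Pool.Agent.W_24bb3a_h26.NtF

/-! Number theory, part F2: multiplication (step (9)). -/

set_option autoImplicit false

namespace BS

theorem MU_sound {x y z : ℤ} (h : MU x y z) : z = x * y := by
  obtain ⟨k, m, n, h1, h2, h3⟩ := h
  obtain ⟨hk, e1⟩ := PR_sound h1
  obtain ⟨-, e2⟩ := PR_sound h2
  obtain ⟨-, e3⟩ := PR_sound h3
  have : k * z = k * (x * y) := by rw [← e3, e2, e1]; ring
  exact mul_left_cancel₀ hk.ne' this

/-- Exponential growth beats quadratic growth. -/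
theorem exists_growth (C : ℕ) : ∃ K : ℕ, ∀ k : ℕ, K ≤ k → 4 * (k * (k + 1) * C) ≤ 2 ^ k := by
  have h := tendsto_pow_const_div_const_pow_of_one_lt 2 (one_lt_two : (1 : ℝ) < 2)
  have hC : (0 : ℝ) < 1 / (8 * C + 1) := by positivity
  have h' := h.eventually (gt_mem_nhds hC)
  obtain ⟨K, hK⟩ := Filter.eventually_atTop.1 h'
  refine ⟨K + 1, fun k hk => ?_⟩
  have h1 := hK k (by omega)
  have h2 : (0 : ℝ) < 2 ^ k := by positivity
  rw [div_lt_div_iff₀ h2 (by positivity)] at h1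
  have h3 : ((k ^ 2 * (8 * C + 1) : ℕ) : ℝ) < ((2 ^ k : ℕ) : ℝ) := by
    push_cast
    linarith
  have h4 : k ^ 2 * (8 * C + 1) < 2 ^ k := by exact_mod_cast h3
  have h5 : 1 ≤ k := by omega
  have h6 : 4 * (k * (k + 1) * C) ≤ k ^ 2 * (8 * C + 1) := by
    have : k * (k + 1) ≤ 2 * k ^ 2 := by nlinarith
    calc 4 * (k * (k + 1) * C) = 4 * C * (k * (k + 1)) := by ring
      _ ≤ 4 * C * (2 * k ^ 2) := Nat.mul_le_mul_left _ this
      _ = k ^ 2 * (8 * C) := by ring
      _ ≤ k ^ 2 * (8 * C + 1) := Nat.mul_le_mul_left _ (Nat.le_succ _)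
  omega

/-- Completeness: `k` a large multiple of 3 (`4 m (m+1) y ≤ 2^m` with `m = k x ≥ k` and
`4 k (k+1) x ≤ 2^k`, `4 k (k+1) x y ≤ 2^k`). -/
theorem MU_complete {x y : ℤ} (hx : 0 < x) (hy : 0 < y) : MU x y (x * y) := by
  obtain ⟨X, rfl⟩ := Int.eq_ofNat_of_zero_le hx.le
  obtain ⟨Y, rfl⟩ := Int.eq_ofNat_of_zero_le hy.le
  have hX : 0 < X := by exact_mod_cast hx
  have hY : 0 < Y := by exact_mod_cast hy
  obtain ⟨K, hK⟩ := exists_growth (X * Y)
  set k : ℕ := 3 * (K + 1) with hk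
  have hk0 : 0 < k := by omega
  have hkK : K ≤ k := by omega
  have hmk : k ≤ k * X := Nat.le_mul_of_pos_right _ hX
  have hm0 : 0 < k * X := Nat.mul_pos hk0 hX
  have b1 := hK k hkK
  have b2 := hK (k * X) (hkK.trans hmk)
  have c1 : 4 * (k * (k + 1) * X) ≤ 2 ^ k := by
    refine le_trans ?_ b1
    refine Nat.mul_le_mul_left _ (Nat.mul_le_mul_left _ (Nat.le_mul_of_pos_right _ hY))
  have c2 : 4 * ((k * X) * (k * X + 1) * Y) ≤ 2 ^ (k * X) := by
    refine le_trans ?_ b2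
    refine Nat.mul_le_mul_left _ (Nat.mul_le_mul_left _ (Nat.le_mul_of_pos_left _ hX))
  have t3 : (3 : ℤ) ∣ (k : ℤ) := ⟨K + 1, by rw [hk]; push_cast; ring⟩
  have t3' : (3 : ℤ) ∣ ((k : ℤ) * X) := t3.mul_right _
  have hkz : (0 : ℤ) < k := by exact_mod_cast hk0
  have p1 : PR (k : ℤ) (X : ℤ) ((k : ℤ) * X) := by
    refine PR_complete hkz t3 (by positivity) ?_
    rw [Int.toNat_natCast]
    exact_mod_cast c1
  have p2 : PR ((k : ℤ) * X) (Y : ℤ) ((k : ℤ) * X * Y) := by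
    refine PR_complete (by positivity) t3' (by positivity) ?_
    have : ((k : ℤ) * X).toNat = k * X := by
      rw [← Nat.cast_mul, Int.toNat_natCast]
    rw [this]
    exact_mod_cast c2
  have p3 : PR (k : ℤ) ((X : ℤ) * Y) ((k : ℤ) * X * Y) := by
    have e : (k : ℤ) * X * Y = (k : ℤ) * ((X : ℤ) * Y) := by ring
    rw [e]
    refine PR_complete hkz t3 (by positivity) ?_
    rw [Int.toNat_natCast]
    exact_mod_cast b1
  exact ⟨k, (k : ℤ) * X, (k : ℤ) * X * Y, p1, p2, p3⟩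

theorem MZ_iff (x y z : ℤ) : MZ x y z ↔ z = x * y := by
  constructor
  · rintro ⟨x1, x2, y1, y2, a, b, c, d, hx, hy, -, -, -, -, ha, hb, hc, hd, hz⟩
    rw [hz, MU_sound ha, MU_sound hb, MU_sound hc, MU_sound hd, hx, hy]
    ring
  · rintro rfl
    have p1 : (0 : ℤ) < x.toNat + 1 := by positivity
    have p2 : (0 : ℤ) < (-x).toNat + 1 := by positivity
    have p3 : (0 : ℤ) < y.toNat + 1 := by positivity
    have p4 : (0 : ℤ) < (-y).toNat + 1 := by positivity
    have ex : x = (x.toNat + 1) - ((-x).toNat + 1) := by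
      have := Int.toNat_sub_toNat_neg x
      linarith
    have ey : y = (y.toNat + 1) - ((-y).toNat + 1) := by
      have := Int.toNat_sub_toNat_neg y
      linarith
    refine ⟨x.toNat + 1, (-x).toNat + 1, y.toNat + 1, (-y).toNat + 1, _, _, _, _, ex, ey,
      ?_, ?_, ?_, ?_, MU_complete p1 p3, MU_complete p1 p4, MU_complete p2 p3,
      MU_complete p2 p4, ?_⟩
    · rw [NN_iff]; linarith
    · rw [NN_iff]; linarith
    · rw [NN_iff]; linarith
    · rw [NN_iff]; linarith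
    · conv_lhs => rw [ex, ey]
      ring

end BS
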