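import Pool.Agent.W_24bb3a_h26.DefB
import Pool.Agent.W_24bb3a_h26.NtF2
import Pool.Agent.W_mrdp_h26.Poly

/-! Diophantine sets of natural numbers are definable in `H`. -/

set_option autoImplicit false

namespace BS

theorem ev_map_shift {α β : Type} (v : β → H) (g : α → β) (w : FreeGroup (Fin 2 ⊕ α)) :
    ev v (FreeGroup.map (Sum.map id g) w) = ev (v ∘ g) w := by
  have h : (ev v).comp (FreeGroup.map (Sum.map id g)) = ev (v ∘ g) := by
    refine FreeGroup.ext_hom _ _ ?_
    rintro (a | a) <;> simp [ev]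
  exact DFunLike.congr_fun h w

theorem LT.shift {l : (ℕ → ℤ) → ℤ} (h : LT l) (k : ℕ) : LT (fun n => l (fun i => n (i + k))) := by
  obtain ⟨w, hw⟩ := h
  refine ⟨FreeGroup.map (Sum.map id (Sum.map (fun i => i + k) id)) w, fun n x hx => ?_⟩
  rw [ev_map_shift, ← hw (fun i => n (i + k)) x hx]
  congr 1
  congr 1
  funext i
  rcases i with i | j <;> rfl

/-- The polynomial `q` extends to integer arguments; the relation `q̂ (s₀ n, s₁ n, ...) = l n` is
definable for all integer terms. Induction on `q` (`Poly.induction`): `proj`: `q̂ v = v i`, `D2.eqZ`;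
`const`; `f - g`: `∃ z, f̂ = z ∧ ĝ = z - l n` (`D2.exZ`, `LT.shift`); `f * g`:
`∃ z₁ z₂, f̂ = z₁ ∧ ĝ = z₂ ∧ MZ z₁ z₂ (l n)` (`D_MZ`, `MZ_iff`). -/
theorem D_poly {γ : Type} (q : Poly γ) :
    ∃ q' : (γ → ℤ) → ℤ, (∀ v : γ → ℕ, q' (fun i => (v i : ℤ)) = q v) ∧
      ∀ (s : γ → (ℕ → ℤ) → ℤ), (∀ i, LT (s i)) → ∀ l : (ℕ → ℤ) → ℤ, LT l →
        D2 (fun n _ => q' (fun i => s i n) = l n) := by
  induction q using Poly.induction with
  | H1 i => exact ⟨fun v => v i, fun v => rfl, fun s hs l hl => D2.eqZ (hs i) hl⟩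
  | H2 c => exact ⟨fun _ => c, fun v => rfl, fun s hs l hl => D2.eqZ (LT.const c) hl⟩
  | H3 f g hf hg =>
    obtain ⟨f', ef, df⟩ := hf
    obtain ⟨g', eg, dg⟩ := hg
    refine ⟨fun v => f' v - g' v, fun v => by rw [Poly.sub_apply, ← ef, ← eg],
      fun s hs l hl => ?_⟩
    have key : D2 (fun n _ => ∃ z : ℤ, f' (fun i => s i n) = z ∧ g' (fun i => s i n) = z - l n) := by
      refine D2.exZ (P := fun z n _ => f' (fun i => s i n) = z ∧ g' (fun i => s i n) = z - l n) ?_
      refine D2.and ?_ ?_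
      · exact df (fun i n => s i (fun j => n (j + 1))) (fun i => (hs i).shift 1) (fun n => n 0)
          (LT.var 0)
      · exact dg (fun i n => s i (fun j => n (j + 1))) (fun i => (hs i).shift 1)
          (fun n => n 0 - l (fun j => n (j + 1))) ((LT.var 0).sub (hl.shift 1))
    refine key.congr fun n x _ => ?_
    constructor
    · rintro ⟨z, h1, h2⟩
      show f' _ - g' _ = l n
      rw [h1, h2]; ring
    · intro h
      refine ⟨_, rfl, ?_⟩
      have h' : f' (fun i => s i n) - g' (fun i => s i n) = l n := h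
      linarith
  | H4 f g hf hg =>
    obtain ⟨f', ef, df⟩ := hf
    obtain ⟨g', eg, dg⟩ := hg
    refine ⟨fun v => f' v * g' v, fun v => by rw [Poly.mul_apply, ← ef, ← eg],
      fun s hs l hl => ?_⟩
    have key : D2 (fun n _ => ∃ z : ℤ, ∃ z' : ℤ, f' (fun i => s i n) = z ∧
        g' (fun i => s i n) = z' ∧ MZ z z' (l n)) := by
      refine D2.exZ (P := fun z n _ => ∃ z' : ℤ, f' (fun i => s i n) = z ∧
        g' (fun i => s i n) = z' ∧ MZ z z' (l n)) ?_
      refine D2.exZ (P := fun z' n _ => f' (fun i => s i (fun j => n (j + 1))) = n 0 ∧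
        g' (fun i => s i (fun j => n (j + 1))) = z' ∧ MZ (n 0) z' (l (fun j => n (j + 1)))) ?_
      refine D2.and ?_ (D2.and ?_ ?_)
      · exact df (fun i n => s i (fun j => n (j + 1 + 1))) (fun i => ((hs i).shift 1).shift 1)
          (fun n => n (0 + 1)) (LT.var 1)
      · exact dg (fun i n => s i (fun j => n (j + 1 + 1))) (fun i => ((hs i).shift 1).shift 1)
          (fun n => n 0) (LT.var 0)
      · exact D2.s30 (P := fun a b c => MZ a b c) D_MZ (l := fun n => n (0 + 1)) (m := fun n => n 0)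
          (k := fun n => l (fun j => n (j + 1 + 1))) (LT.var 1) (LT.var 0) ((hl.shift 1).shift 1)
    refine key.congr fun n x _ => ?_
    constructor
    · rintro ⟨z, z', h1, h2, h3⟩
      show f' _ * g' _ = l n
      rw [h1, h2]
      exact ((MZ_iff _ _ _).1 h3).symm
    · intro h
      exact ⟨_, _, rfl, rfl, (MZ_iff _ _ _).2 h.symm⟩

/-- A Diophantine predicate of one natural number is definable in `H`. With `DP.finDummies`
(`α = ℕ`; substitute the same variable for all variables in `ℕ`, i.e. use the polynomial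
`p.map` to `Fin (k+1)`: `inl _ ↦ 0`, `inr i ↦ i.succ`: `P a` iff there is `t : Fin k → ℕ` with
`p (Sum.elim (fun _ => a) t) = 0`), `D2.exBlock`, `D2.forallFin` (`0 ≤ v i` is `NN`), `D_poly`. -/
theorem DP_to_D2 {P : ℕ → Prop} (h : Mrdp.DP (fun v : ℕ → ℕ => P (v 0))) :
    D2 (fun n _ => ∃ a : ℕ, (a : ℤ) = n 0 ∧ P a) := by
  obtain ⟨k, p, hp⟩ := h.finDummies
  obtain ⟨q, eq, dq⟩ := D_poly p
  have key : D2 (fun n _ => ∃ v : Fin k → ℤ, NN (n 0) ∧ (∀ i, NN (v i)) ∧
      q (Sum.elim (fun _ => n 0) v) = 0) := by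
    refine D2.exBlock (P := fun v n _ => NN (n 0) ∧ (∀ i, NN (v i)) ∧
      q (Sum.elim (fun _ => n 0) v) = 0) ?_
    refine D2.and ?_ (D2.and ?_ ?_)
    · exact D2.s10 (P := fun a => NN a) D_NN (l := fun n => n (0 + k)) (LT.var _)
    · exact D2.forallFin (P := fun (i : Fin k) n _ => NN (n i.val)) fun i =>
        D2.s10 (P := fun a => NN a) D_NN (l := fun n => n i.val) (LT.var _)
    · refine (dq (fun i n => Sum.elim (fun _ => n (0 + k)) (fun i : Fin k => n i.val) i) ?_
        (fun _ => 0) (LT.const 0)).congr fun n x _ => ?_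
      · rintro (i | i)
        · exact LT.var _
        · exact LT.var _
      · exact Iff.rfl
  refine key.congr fun n x _ => ?_
  constructor
  · rintro ⟨v, h0, hv, hq⟩
    obtain ⟨a, ha⟩ := Int.eq_ofNat_of_zero_le ((NN_iff _).1 h0)
    have hv' : ∀ i, ∃ b : ℕ, v i = b := fun i => Int.eq_ofNat_of_zero_le ((NN_iff _).1 (hv i))
    choose b hb using hv'
    refine ⟨a, ha.symm, (hp (fun _ => a)).2 ⟨b, ?_⟩⟩
    rw [← eq, ← hq]
    congr 1
    funext i
    rcases i with i | i
    · exact ha.symm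
    · exact (hb i).symm
  · rintro ⟨a, ha, hP⟩
    obtain ⟨t, ht⟩ := (hp (fun _ => a)).1 hP
    refine ⟨fun i => t i, (NN_iff _).2 (by rw [← ha]; exact Int.natCast_nonneg _),
      fun i => (NN_iff _).2 (Int.natCast_nonneg _), ?_⟩
    rw [← ht, ← eq]
    congr 1
    funext i
    rcases i with i | i
    · exact ha.symm
    · rfl

end BS
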