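import Pool.Agent.W_24bb3a_h26.PolyD
import Pool.Agent.W_24bb3a_h26.Grp

/-! The reduction. -/

set_option autoImplicit false

namespace BS

/-- Translation of letters: constants stay, the variable of every integer `n i` becomes the
variable 0, the auxiliary variable `j` becomes `j + 1`, the dyadic variables disappear. -/
def letter {m : ℕ} (s : (Fin 2 ⊕ ((ℕ ⊕ ℕ) ⊕ Fin m)) × Bool) : List ((Fin 2 ⊕ ℕ) × Bool) :=
  match s with
  | (Sum.inl c, b) => [(Sum.inl c, b)]
  | (Sum.inr (Sum.inl (Sum.inl _)), b) => [(Sum.inr 0, b)]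
  | (Sum.inr (Sum.inl (Sum.inr _)), _) => []
  | (Sum.inr (Sum.inr j), b) => [(Sum.inr (j.val + 1), b)]

/-- The word `z₀ t^(-a)`. -/
def eqn (a : ℕ) : List ((Fin 2 ⊕ ℕ) × Bool) :=
  (Sum.inr 0, true) :: List.replicate a (Sum.inl 1, false)

/-- The system number `a`. -/
def sys {m : ℕ} (L : List (FreeGroup (Fin 2 ⊕ ((ℕ ⊕ ℕ) ⊕ Fin m)))) (a : ℕ) :
    List (List ((Fin 2 ⊕ ℕ) × Bool)) :=
  eqn a :: L.map (fun w => w.toWord.flatMap letter)

/-- Evaluation of one translated letter. -/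
theorem letter_prod {m : ℕ} (a : ℕ) (f : ℕ → H) (h0 : f 0 = mkT a)
    (s : (Fin 2 ⊕ ((ℕ ⊕ ℕ) ⊕ Fin m)) × Bool) :
    ((letter s).map (fun y => cond y.2 (Sum.elim cst f y.1) (Sum.elim cst f y.1)⁻¹)).prod =
      cond s.2 (Sum.elim cst (Sum.elim (env (fun _ => (a : ℤ)) (fun _ => 0) (fun _ => Dy.zero))
        (fun j : Fin m => f (j.val + 1))) s.1)
        (Sum.elim cst (Sum.elim (env (fun _ => (a : ℤ)) (fun _ => 0) (fun _ => Dy.zero))
        (fun j : Fin m => f (j.val + 1))) s.1)⁻¹ := by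
  rcases s with ⟨c | (i | j) | k, b⟩
  · cases b <;> simp [letter]
  · cases b <;> simp [letter, env, h0]
  · cases b <;> simp [letter, env, mkA_zero]
  · cases b <;> simp [letter]

/-- Evaluation of a translated word. -/
theorem word_prod {m : ℕ} (a : ℕ) (f : ℕ → H) (h0 : f 0 = mkT a)
    (l : List ((Fin 2 ⊕ ((ℕ ⊕ ℕ) ⊕ Fin m)) × Bool)) :
    FreeGroup.lift (Sum.elim cst f) (FreeGroup.mk (l.flatMap letter)) =
      FreeGroup.lift (Sum.elim cst (Sum.elim (env (fun _ => (a : ℤ)) (fun _ => 0)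
        (fun _ => Dy.zero)) (fun j : Fin m => f (j.val + 1)))) (FreeGroup.mk l) := by
  rw [FreeGroup.lift_mk, FreeGroup.lift_mk]
  induction l with
  | nil => simp
  | cons s l ih =>
    rw [List.flatMap_cons, List.map_append, List.prod_append, List.map_cons, List.prod_cons, ih,
      letter_prod a f h0 s]

theorem mkT_pow (a : ℕ) : (mkT 1) ^ a = mkT (a : ℤ) := by
  induction a with
  | zero => simp [mkT_zero]
  | succ n ih => rw [pow_succ, ih, mkT_mul]; push_cast; rfl

theorem eqn_value (a : ℕ) (f : ℕ → H) :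
    FreeGroup.lift (Sum.elim cst f) (FreeGroup.mk (eqn a)) = 1 ↔ f 0 = mkT a := by
  rw [FreeGroup.lift_mk]
  have : ((eqn a).map (fun y => cond y.2 (Sum.elim cst f y.1) (Sum.elim cst f y.1)⁻¹)).prod =
      f 0 * (mkT a)⁻¹ := by
    unfold eqn
    rw [List.map_cons, List.prod_cons, List.map_replicate, List.prod_replicate]
    simp only [cond_true, cond_false, Sum.elim_inr, Sum.elim_inl]
    have : cst 1 = mkT 1 := rfl
    rw [this, inv_pow, mkT_pow]
  rw [this, mul_inv_eq_one]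

/-- Solvability of the system number `a` in `H`. For `f : ℕ → H` with `f 0 = mkT a` put
`u j = f (j+1)`: the value of the translated word under `f` is `ev (Sum.elim (env ..) u) w`
with `n = fun _ => a`, `x = fun _ => 0` (`mkA_zero`). -/
theorem sys_solvable_iff {m : ℕ} {L : List (FreeGroup (Fin 2 ⊕ ((ℕ ⊕ ℕ) ⊕ Fin m)))} {P : ℕ → Prop}
    (hL : ∀ (n : ℕ → ℤ) (x : ℕ → ℚ) (hx : ∀ j, Dy (x j)),
      (∃ a : ℕ, (a : ℤ) = n 0 ∧ P a) ↔ ∃ u : Fin m → H, ∀ w ∈ L, ev (Sum.elim (env n x hx) u) w = 1)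
    (a : ℕ) :
    (∃ f : ℕ → H, ∀ w ∈ sys L a, FreeGroup.lift (Sum.elim cst f) (FreeGroup.mk w) = 1) ↔ P a := by
  have hL' := hL (fun _ => (a : ℤ)) (fun _ => 0) (fun _ => Dy.zero)
  have hP : (∃ b : ℕ, (b : ℤ) = (fun _ : ℕ => (a : ℤ)) 0 ∧ P b) ↔ P a := by
    constructor
    · rintro ⟨b, hb, hPb⟩
      have : b = a := by
        have h2 : (b : ℤ) = (a : ℤ) := hb
        exact_mod_cast h2
      rwa [this] at hPb
    · intro h
      exact ⟨a, rfl, h⟩
  rw [← hP, hL']
  constructor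
  · rintro ⟨f, hf⟩
    have h0 : f 0 = mkT a := (eqn_value a f).1 (hf _ (by simp [sys]))
    refine ⟨fun j => f (j.val + 1), fun w hw => ?_⟩
    have h1 := hf (w.toWord.flatMap letter) (by
      unfold sys
      exact List.mem_cons_of_mem _ (List.mem_map.2 ⟨w, hw, rfl⟩))
    rw [word_prod a f h0, FreeGroup.mk_toWord] at h1
    exact h1
  · rintro ⟨u, hu⟩
    let f : ℕ → H := fun i => if i = 0 then mkT a else if h : i - 1 < m then u ⟨i - 1, h⟩ else 1
    have h0 : f 0 = mkT a := by simp [f]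
    have hfu : (fun j : Fin m => f (j.val + 1)) = u := by
      funext j
      simp [f]
    refine ⟨f, fun w hw => ?_⟩
    unfold sys at hw
    rw [List.mem_cons] at hw
    rcases hw with rfl | hw
    · exact (eqn_value a f).2 h0
    · obtain ⟨w', hw', rfl⟩ := List.mem_map.1 hw
      rw [word_prod a f h0, FreeGroup.mk_toWord, hfu]
      exact hu w' hw'

/-- Transport of solvability along the isomorphism `exists_equiv`. -/
theorem solvable_transport (S : List (List ((Fin 2 ⊕ ℕ) × Bool))) :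
    (∃ f : ℕ → BG, ∀ w ∈ S, FreeGroup.lift (Sum.elim (fun i : Fin 2 => bof i) f)
      (FreeGroup.mk w) = 1) ↔
    (∃ f : ℕ → H, ∀ w ∈ S, FreeGroup.lift (Sum.elim cst f) (FreeGroup.mk w) = 1) := by
  obtain ⟨e, he0, he1⟩ := exists_equiv
  have key : ∀ (f : ℕ → BG) (w : List ((Fin 2 ⊕ ℕ) × Bool)),
      e (FreeGroup.lift (Sum.elim (fun i : Fin 2 => bof i) f) (FreeGroup.mk w)) =
        FreeGroup.lift (Sum.elim cst (fun i => e (f i))) (FreeGroup.mk w) := by
    intro f w
    have h1 : (e.toMonoidHom.comp (FreeGroup.lift (Sum.elim (fun i : Fin 2 => bof i) f))) =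
        FreeGroup.lift (Sum.elim cst (fun i => e (f i))) := by
      apply FreeGroup.ext_hom
      intro s
      rcases s with c | i
      · fin_cases c
        · simp [he0, cst]
        · simp [he1, cst]
      · simp
    exact DFunLike.congr_fun h1 (FreeGroup.mk w)
  constructor
  · rintro ⟨f, hf⟩
    refine ⟨fun i => e (f i), fun w hw => ?_⟩
    rw [← key, hf w hw, map_one]
  · rintro ⟨f, hf⟩
    refine ⟨fun i => e.symm (f i), fun w hw => ?_⟩
    apply e.injective
    rw [key, map_one]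
    have : (fun i => e (e.symm (f i))) = f := by funext i; simp
    rw [this]
    exact hf w hw

end BS
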